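import Pool.Agent.Lib.MP_7e4769_co.St.DB

set_option autoImplicit false
set_option maxRecDepth 100000

namespace Pool.Agent.Hom2.St
open Pool.Agent.Hom2.Sc

theorem zt18103 : Nat.beq (chkBF (pm4 (.leaf 0)) 1 18103 (nat_lit 0x44c4844403c3834302c2824201c1814100c08040011ad90000b7)) 0 = true := by decide +kernel
theorem zd1536 : Ch 18103 18104 :=
  Ch.st 18103 1 18104 _ _ zt18103 <|
  Ch.rf 18104

end Pool.Agent.Hom2.St
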