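import Pool.Agent.Lib.MP_7e4769_co.Hc.Fin2
import Pool.Agent.Lib.MP_7e4769_co.Hc.RpAll
import Pool.Agent.Lib.MP_7e4769_co.St.D0
import Pool.Agent.Lib.MP_7e4769_co.St.D1
import Pool.Agent.Lib.MP_7e4769_co.St.D2
import Pool.Agent.Lib.MP_7e4769_co.St.D3
import Pool.Agent.Lib.MP_7e4769_co.St.D4
import Pool.Agent.Lib.MP_7e4769_co.St.D5
import Pool.Agent.Lib.MP_7e4769_co.St.D6
import Pool.Agent.Lib.MP_7e4769_co.St.D7
import Pool.Agent.Lib.MP_7e4769_co.St.D8
import Pool.Agent.Lib.MP_7e4769_co.St.D9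
import Pool.Agent.Lib.MP_7e4769_co.St.D10
import Pool.Agent.Lib.MP_7e4769_co.St.D11
import Pool.Agent.Lib.MP_7e4769_co.St.D12
import Pool.Agent.Lib.MP_7e4769_co.St.D13
import Pool.Agent.Lib.MP_7e4769_co.St.D14
import Pool.Agent.Lib.MP_7e4769_co.St.D15
import Pool.Agent.Lib.MP_7e4769_co.St.D16
import Pool.Agent.Lib.MP_7e4769_co.St.D17
import Pool.Agent.Lib.MP_7e4769_co.St.D18
import Pool.Agent.Lib.MP_7e4769_co.St.D19
import Pool.Agent.Lib.MP_7e4769_co.St.D20
import Pool.Agent.Lib.MP_7e4769_co.St.D21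
import Pool.Agent.Lib.MP_7e4769_co.St.D22
import Pool.Agent.Lib.MP_7e4769_co.St.D23
import Pool.Agent.Lib.MP_7e4769_co.St.D24
import Pool.Agent.Lib.MP_7e4769_co.St.D25
import Pool.Agent.Lib.MP_7e4769_co.St.D26
import Pool.Agent.Lib.MP_7e4769_co.St.D27
import Pool.Agent.Lib.MP_7e4769_co.St.D28
import Pool.Agent.Lib.MP_7e4769_co.St.D29
import Pool.Agent.Lib.MP_7e4769_co.St.D30
import Pool.Agent.Lib.MP_7e4769_co.St.D31
import Pool.Agent.Lib.MP_7e4769_co.St.D32
import Pool.Agent.Lib.MP_7e4769_co.St.D33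
import Pool.Agent.Lib.MP_7e4769_co.St.D34
import Pool.Agent.Lib.MP_7e4769_co.St.D35
import Pool.Agent.Lib.MP_7e4769_co.St.D36
import Pool.Agent.Lib.MP_7e4769_co.St.D37
import Pool.Agent.Lib.MP_7e4769_co.St.D38
import Pool.Agent.Lib.MP_7e4769_co.St.D39
import Pool.Agent.Lib.MP_7e4769_co.St.D40
import Pool.Agent.Lib.MP_7e4769_co.St.D41
import Pool.Agent.Lib.MP_7e4769_co.St.D42
import Pool.Agent.Lib.MP_7e4769_co.St.D43
import Pool.Agent.Lib.MP_7e4769_co.St.D44
import Pool.Agent.Lib.MP_7e4769_co.St.D45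
import Pool.Agent.Lib.MP_7e4769_co.St.D46
import Pool.Agent.Lib.MP_7e4769_co.St.D47
import Pool.Agent.Lib.MP_7e4769_co.St.D48
import Pool.Agent.Lib.MP_7e4769_co.St.D49
import Pool.Agent.Lib.MP_7e4769_co.St.D50
import Pool.Agent.Lib.MP_7e4769_co.St.D51
import Pool.Agent.Lib.MP_7e4769_co.St.D52
import Pool.Agent.Lib.MP_7e4769_co.St.D53
import Pool.Agent.Lib.MP_7e4769_co.St.D54
import Pool.Agent.Lib.MP_7e4769_co.St.D55
import Pool.Agent.Lib.MP_7e4769_co.St.D56
import Pool.Agent.Lib.MP_7e4769_co.St.D57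
import Pool.Agent.Lib.MP_7e4769_co.St.D58
import Pool.Agent.Lib.MP_7e4769_co.St.D59
import Pool.Agent.Lib.MP_7e4769_co.St.D60
import Pool.Agent.Lib.MP_7e4769_co.St.D61
import Pool.Agent.Lib.MP_7e4769_co.St.D62
import Pool.Agent.Lib.MP_7e4769_co.St.D63
import Pool.Agent.Lib.MP_7e4769_co.St.D64
import Pool.Agent.Lib.MP_7e4769_co.St.D65
import Pool.Agent.Lib.MP_7e4769_co.St.D66
import Pool.Agent.Lib.MP_7e4769_co.St.D67
import Pool.Agent.Lib.MP_7e4769_co.St.D68
import Pool.Agent.Lib.MP_7e4769_co.St.D69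
import Pool.Agent.Lib.MP_7e4769_co.St.D70
import Pool.Agent.Lib.MP_7e4769_co.St.D71
import Pool.Agent.Lib.MP_7e4769_co.St.D72
import Pool.Agent.Lib.MP_7e4769_co.St.D73
import Pool.Agent.Lib.MP_7e4769_co.St.D74
import Pool.Agent.Lib.MP_7e4769_co.St.D75
import Pool.Agent.Lib.MP_7e4769_co.St.D76
import Pool.Agent.Lib.MP_7e4769_co.St.D77
import Pool.Agent.Lib.MP_7e4769_co.St.D78
import Pool.Agent.Lib.MP_7e4769_co.St.D79
import Pool.Agent.Lib.MP_7e4769_co.St.D80
import Pool.Agent.Lib.MP_7e4769_co.St.D81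
import Pool.Agent.Lib.MP_7e4769_co.St.D82
import Pool.Agent.Lib.MP_7e4769_co.St.D83
import Pool.Agent.Lib.MP_7e4769_co.St.D84
import Pool.Agent.Lib.MP_7e4769_co.St.D85
import Pool.Agent.Lib.MP_7e4769_co.St.D86
import Pool.Agent.Lib.MP_7e4769_co.St.D87
import Pool.Agent.Lib.MP_7e4769_co.St.D88
import Pool.Agent.Lib.MP_7e4769_co.St.D89
import Pool.Agent.Lib.MP_7e4769_co.St.D90
import Pool.Agent.Lib.MP_7e4769_co.St.D91
import Pool.Agent.Lib.MP_7e4769_co.St.D92
import Pool.Agent.Lib.MP_7e4769_co.St.D93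
import Pool.Agent.Lib.MP_7e4769_co.St.D94
import Pool.Agent.Lib.MP_7e4769_co.St.D95
import Pool.Agent.Lib.MP_7e4769_co.St.D96
import Pool.Agent.Lib.MP_7e4769_co.St.D97
import Pool.Agent.Lib.MP_7e4769_co.St.D98
import Pool.Agent.Lib.MP_7e4769_co.St.D99
import Pool.Agent.Lib.MP_7e4769_co.St.D100
import Pool.Agent.Lib.MP_7e4769_co.St.D101
import Pool.Agent.Lib.MP_7e4769_co.St.D102
import Pool.Agent.Lib.MP_7e4769_co.St.D103
import Pool.Agent.Lib.MP_7e4769_co.St.D104
import Pool.Agent.Lib.MP_7e4769_co.St.D105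
import Pool.Agent.Lib.MP_7e4769_co.St.D106
import Pool.Agent.Lib.MP_7e4769_co.St.D107
import Pool.Agent.Lib.MP_7e4769_co.St.D108
import Pool.Agent.Lib.MP_7e4769_co.St.D109
import Pool.Agent.Lib.MP_7e4769_co.St.D110
import Pool.Agent.Lib.MP_7e4769_co.St.D111
import Pool.Agent.Lib.MP_7e4769_co.St.D112
import Pool.Agent.Lib.MP_7e4769_co.St.D113
import Pool.Agent.Lib.MP_7e4769_co.St.D114
import Pool.Agent.Lib.MP_7e4769_co.St.D115
import Pool.Agent.Lib.MP_7e4769_co.St.D116
import Pool.Agent.Lib.MP_7e4769_co.St.D117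
import Pool.Agent.Lib.MP_7e4769_co.St.D118
import Pool.Agent.Lib.MP_7e4769_co.St.D119
import Pool.Agent.Lib.MP_7e4769_co.St.D120
import Pool.Agent.Lib.MP_7e4769_co.St.D121
import Pool.Agent.Lib.MP_7e4769_co.St.D122
import Pool.Agent.Lib.MP_7e4769_co.St.D123
import Pool.Agent.Lib.MP_7e4769_co.St.D124
import Pool.Agent.Lib.MP_7e4769_co.St.D125
import Pool.Agent.Lib.MP_7e4769_co.St.D126
import Pool.Agent.Lib.MP_7e4769_co.St.D127
import Pool.Agent.Lib.MP_7e4769_co.St.D128
import Pool.Agent.Lib.MP_7e4769_co.St.D129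
import Pool.Agent.Lib.MP_7e4769_co.St.D130
import Pool.Agent.Lib.MP_7e4769_co.St.D131
import Pool.Agent.Lib.MP_7e4769_co.St.D132
import Pool.Agent.Lib.MP_7e4769_co.St.D133
import Pool.Agent.Lib.MP_7e4769_co.St.D134
import Pool.Agent.Lib.MP_7e4769_co.St.D135
import Pool.Agent.Lib.MP_7e4769_co.St.D136
import Pool.Agent.Lib.MP_7e4769_co.St.D137
import Pool.Agent.Lib.MP_7e4769_co.St.D138
import Pool.Agent.Lib.MP_7e4769_co.St.D139
import Pool.Agent.Lib.MP_7e4769_co.St.D140
import Pool.Agent.Lib.MP_7e4769_co.St.D141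
import Pool.Agent.Lib.MP_7e4769_co.St.D142
import Pool.Agent.Lib.MP_7e4769_co.St.D143
import Pool.Agent.Lib.MP_7e4769_co.St.D144
import Pool.Agent.Lib.MP_7e4769_co.St.D145
import Pool.Agent.Lib.MP_7e4769_co.St.D146
import Pool.Agent.Lib.MP_7e4769_co.St.D147
import Pool.Agent.Lib.MP_7e4769_co.St.D148
import Pool.Agent.Lib.MP_7e4769_co.St.D149
import Pool.Agent.Lib.MP_7e4769_co.St.D150
import Pool.Agent.Lib.MP_7e4769_co.St.D151
import Pool.Agent.Lib.MP_7e4769_co.St.D152
import Pool.Agent.Lib.MP_7e4769_co.St.D153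
import Pool.Agent.Lib.MP_7e4769_co.St.D154
import Pool.Agent.Lib.MP_7e4769_co.St.D155
import Pool.Agent.Lib.MP_7e4769_co.St.D156
import Pool.Agent.Lib.MP_7e4769_co.St.D157
import Pool.Agent.Lib.MP_7e4769_co.St.D158
import Pool.Agent.Lib.MP_7e4769_co.St.D159
import Pool.Agent.Lib.MP_7e4769_co.St.D160
import Pool.Agent.Lib.MP_7e4769_co.St.D161
import Pool.Agent.Lib.MP_7e4769_co.St.D162
import Pool.Agent.Lib.MP_7e4769_co.St.D163
import Pool.Agent.Lib.MP_7e4769_co.St.D164
import Pool.Agent.Lib.MP_7e4769_co.St.D165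
import Pool.Agent.Lib.MP_7e4769_co.St.D166
import Pool.Agent.Lib.MP_7e4769_co.St.D167
import Pool.Agent.Lib.MP_7e4769_co.St.D168
import Pool.Agent.Lib.MP_7e4769_co.St.D169
import Pool.Agent.Lib.MP_7e4769_co.St.D170
import Pool.Agent.Lib.MP_7e4769_co.St.D171
import Pool.Agent.Lib.MP_7e4769_co.St.D172
import Pool.Agent.Lib.MP_7e4769_co.St.D173
import Pool.Agent.Lib.MP_7e4769_co.St.D174
import Pool.Agent.Lib.MP_7e4769_co.St.D175
import Pool.Agent.Lib.MP_7e4769_co.St.D176
import Pool.Agent.Lib.MP_7e4769_co.St.D177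
import Pool.Agent.Lib.MP_7e4769_co.St.D178
import Pool.Agent.Lib.MP_7e4769_co.St.D179
import Pool.Agent.Lib.MP_7e4769_co.St.D180
import Pool.Agent.Lib.MP_7e4769_co.St.D181
import Pool.Agent.Lib.MP_7e4769_co.St.D182
import Pool.Agent.Lib.MP_7e4769_co.St.D183
import Pool.Agent.Lib.MP_7e4769_co.St.D184
import Pool.Agent.Lib.MP_7e4769_co.St.D185
import Pool.Agent.Lib.MP_7e4769_co.St.D186
import Pool.Agent.Lib.MP_7e4769_co.St.D187
import Pool.Agent.Lib.MP_7e4769_co.St.D188
import Pool.Agent.Lib.MP_7e4769_co.St.D189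
import Pool.Agent.Lib.MP_7e4769_co.St.D190
import Pool.Agent.Lib.MP_7e4769_co.St.D191
import Pool.Agent.Lib.MP_7e4769_co.St.D192
import Pool.Agent.Lib.MP_7e4769_co.St.D193
import Pool.Agent.Lib.MP_7e4769_co.St.D194
import Pool.Agent.Lib.MP_7e4769_co.St.D195
import Pool.Agent.Lib.MP_7e4769_co.St.D196
import Pool.Agent.Lib.MP_7e4769_co.St.D197
import Pool.Agent.Lib.MP_7e4769_co.St.D198
import Pool.Agent.Lib.MP_7e4769_co.St.D199
import Pool.Agent.Lib.MP_7e4769_co.St.D200
import Pool.Agent.Lib.MP_7e4769_co.St.D201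
import Pool.Agent.Lib.MP_7e4769_co.St.D202
import Pool.Agent.Lib.MP_7e4769_co.St.D203
import Pool.Agent.Lib.MP_7e4769_co.St.D204
import Pool.Agent.Lib.MP_7e4769_co.St.D205
import Pool.Agent.Lib.MP_7e4769_co.St.D206
import Pool.Agent.Lib.MP_7e4769_co.St.D207
import Pool.Agent.Lib.MP_7e4769_co.St.D208
import Pool.Agent.Lib.MP_7e4769_co.St.D209
import Pool.Agent.Lib.MP_7e4769_co.St.D210
import Pool.Agent.Lib.MP_7e4769_co.St.D211
import Pool.Agent.Lib.MP_7e4769_co.St.D212
import Pool.Agent.Lib.MP_7e4769_co.St.D213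
import Pool.Agent.Lib.MP_7e4769_co.St.D214
import Pool.Agent.Lib.MP_7e4769_co.St.D215
import Pool.Agent.Lib.MP_7e4769_co.St.D216
import Pool.Agent.Lib.MP_7e4769_co.St.D217
import Pool.Agent.Lib.MP_7e4769_co.St.D218
import Pool.Agent.Lib.MP_7e4769_co.St.D219
import Pool.Agent.Lib.MP_7e4769_co.St.D220
import Pool.Agent.Lib.MP_7e4769_co.St.D221
import Pool.Agent.Lib.MP_7e4769_co.St.D222
import Pool.Agent.Lib.MP_7e4769_co.St.D223
import Pool.Agent.Lib.MP_7e4769_co.St.D224
import Pool.Agent.Lib.MP_7e4769_co.St.D225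
import Pool.Agent.Lib.MP_7e4769_co.St.D226
import Pool.Agent.Lib.MP_7e4769_co.St.D227
import Pool.Agent.Lib.MP_7e4769_co.St.D228
import Pool.Agent.Lib.MP_7e4769_co.St.D229
import Pool.Agent.Lib.MP_7e4769_co.St.D230
import Pool.Agent.Lib.MP_7e4769_co.St.D231
import Pool.Agent.Lib.MP_7e4769_co.St.D232
import Pool.Agent.Lib.MP_7e4769_co.St.D233
import Pool.Agent.Lib.MP_7e4769_co.St.D234
import Pool.Agent.Lib.MP_7e4769_co.St.D235
import Pool.Agent.Lib.MP_7e4769_co.St.D236
import Pool.Agent.Lib.MP_7e4769_co.St.D237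
import Pool.Agent.Lib.MP_7e4769_co.St.D238
import Pool.Agent.Lib.MP_7e4769_co.St.D239
import Pool.Agent.Lib.MP_7e4769_co.St.D240
import Pool.Agent.Lib.MP_7e4769_co.St.D241
import Pool.Agent.Lib.MP_7e4769_co.St.D242
import Pool.Agent.Lib.MP_7e4769_co.St.D243
import Pool.Agent.Lib.MP_7e4769_co.St.D244
import Pool.Agent.Lib.MP_7e4769_co.St.D245
import Pool.Agent.Lib.MP_7e4769_co.St.D246
import Pool.Agent.Lib.MP_7e4769_co.St.D247
import Pool.Agent.Lib.MP_7e4769_co.St.D248
import Pool.Agent.Lib.MP_7e4769_co.St.D249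
import Pool.Agent.Lib.MP_7e4769_co.St.D250
import Pool.Agent.Lib.MP_7e4769_co.St.D251
import Pool.Agent.Lib.MP_7e4769_co.St.D252
import Pool.Agent.Lib.MP_7e4769_co.St.D253
import Pool.Agent.Lib.MP_7e4769_co.St.D254
import Pool.Agent.Lib.MP_7e4769_co.St.D255
import Pool.Agent.Lib.MP_7e4769_co.St.D256
import Pool.Agent.Lib.MP_7e4769_co.St.D257
import Pool.Agent.Lib.MP_7e4769_co.St.D258
import Pool.Agent.Lib.MP_7e4769_co.St.D259
import Pool.Agent.Lib.MP_7e4769_co.St.D260
import Pool.Agent.Lib.MP_7e4769_co.St.D261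
import Pool.Agent.Lib.MP_7e4769_co.St.D262
import Pool.Agent.Lib.MP_7e4769_co.St.D263
import Pool.Agent.Lib.MP_7e4769_co.St.D264
import Pool.Agent.Lib.MP_7e4769_co.St.D265
import Pool.Agent.Lib.MP_7e4769_co.St.D266
import Pool.Agent.Lib.MP_7e4769_co.St.D267
import Pool.Agent.Lib.MP_7e4769_co.St.D268
import Pool.Agent.Lib.MP_7e4769_co.St.D269
import Pool.Agent.Lib.MP_7e4769_co.St.D270
import Pool.Agent.Lib.MP_7e4769_co.St.D271
import Pool.Agent.Lib.MP_7e4769_co.St.D272
import Pool.Agent.Lib.MP_7e4769_co.St.D273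
import Pool.Agent.Lib.MP_7e4769_co.St.D274
import Pool.Agent.Lib.MP_7e4769_co.St.D275
import Pool.Agent.Lib.MP_7e4769_co.St.D276
import Pool.Agent.Lib.MP_7e4769_co.St.D277
import Pool.Agent.Lib.MP_7e4769_co.St.D278
import Pool.Agent.Lib.MP_7e4769_co.St.D279
import Pool.Agent.Lib.MP_7e4769_co.St.D280
import Pool.Agent.Lib.MP_7e4769_co.St.D281
import Pool.Agent.Lib.MP_7e4769_co.St.D282
import Pool.Agent.Lib.MP_7e4769_co.St.D283
import Pool.Agent.Lib.MP_7e4769_co.St.D284
import Pool.Agent.Lib.MP_7e4769_co.St.D285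
import Pool.Agent.Lib.MP_7e4769_co.St.D286
import Pool.Agent.Lib.MP_7e4769_co.St.D287
import Pool.Agent.Lib.MP_7e4769_co.St.D288
import Pool.Agent.Lib.MP_7e4769_co.St.D289
import Pool.Agent.Lib.MP_7e4769_co.St.D290
import Pool.Agent.Lib.MP_7e4769_co.St.D291
import Pool.Agent.Lib.MP_7e4769_co.St.D292
import Pool.Agent.Lib.MP_7e4769_co.St.D293
import Pool.Agent.Lib.MP_7e4769_co.St.D294
import Pool.Agent.Lib.MP_7e4769_co.St.D295
import Pool.Agent.Lib.MP_7e4769_co.St.D296
import Pool.Agent.Lib.MP_7e4769_co.St.D297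
import Pool.Agent.Lib.MP_7e4769_co.St.D298
import Pool.Agent.Lib.MP_7e4769_co.St.D299
import Pool.Agent.Lib.MP_7e4769_co.St.D300
import Pool.Agent.Lib.MP_7e4769_co.St.D301
import Pool.Agent.Lib.MP_7e4769_co.St.D302
import Pool.Agent.Lib.MP_7e4769_co.St.D303
import Pool.Agent.Lib.MP_7e4769_co.St.D304
import Pool.Agent.Lib.MP_7e4769_co.St.D305
import Pool.Agent.Lib.MP_7e4769_co.St.D306
import Pool.Agent.Lib.MP_7e4769_co.St.D307
import Pool.Agent.Lib.MP_7e4769_co.St.D308
import Pool.Agent.Lib.MP_7e4769_co.St.D309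
import Pool.Agent.Lib.MP_7e4769_co.St.D310
import Pool.Agent.Lib.MP_7e4769_co.St.D311
import Pool.Agent.Lib.MP_7e4769_co.St.D312
import Pool.Agent.Lib.MP_7e4769_co.St.D313
import Pool.Agent.Lib.MP_7e4769_co.St.D314
import Pool.Agent.Lib.MP_7e4769_co.St.D315
import Pool.Agent.Lib.MP_7e4769_co.St.D316
import Pool.Agent.Lib.MP_7e4769_co.St.D317
import Pool.Agent.Lib.MP_7e4769_co.St.D318
import Pool.Agent.Lib.MP_7e4769_co.St.D319
import Pool.Agent.Lib.MP_7e4769_co.St.D320
import Pool.Agent.Lib.MP_7e4769_co.St.D321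
import Pool.Agent.Lib.MP_7e4769_co.St.D322
import Pool.Agent.Lib.MP_7e4769_co.St.D323
import Pool.Agent.Lib.MP_7e4769_co.St.D324
import Pool.Agent.Lib.MP_7e4769_co.St.D325
import Pool.Agent.Lib.MP_7e4769_co.St.D326
import Pool.Agent.Lib.MP_7e4769_co.St.D327
import Pool.Agent.Lib.MP_7e4769_co.St.D328
import Pool.Agent.Lib.MP_7e4769_co.St.D329
import Pool.Agent.Lib.MP_7e4769_co.St.D330
import Pool.Agent.Lib.MP_7e4769_co.St.D331
import Pool.Agent.Lib.MP_7e4769_co.St.D332
import Pool.Agent.Lib.MP_7e4769_co.St.D333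
import Pool.Agent.Lib.MP_7e4769_co.St.D334
import Pool.Agent.Lib.MP_7e4769_co.St.D335
import Pool.Agent.Lib.MP_7e4769_co.St.D336
import Pool.Agent.Lib.MP_7e4769_co.St.D337
import Pool.Agent.Lib.MP_7e4769_co.St.D338
import Pool.Agent.Lib.MP_7e4769_co.St.D339
import Pool.Agent.Lib.MP_7e4769_co.St.D340
import Pool.Agent.Lib.MP_7e4769_co.St.D341
import Pool.Agent.Lib.MP_7e4769_co.St.D342
import Pool.Agent.Lib.MP_7e4769_co.St.D343
import Pool.Agent.Lib.MP_7e4769_co.St.D344
import Pool.Agent.Lib.MP_7e4769_co.St.D345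
import Pool.Agent.Lib.MP_7e4769_co.St.D346
import Pool.Agent.Lib.MP_7e4769_co.St.D347
import Pool.Agent.Lib.MP_7e4769_co.St.D348
import Pool.Agent.Lib.MP_7e4769_co.St.D349
import Pool.Agent.Lib.MP_7e4769_co.St.D350
import Pool.Agent.Lib.MP_7e4769_co.St.D351
import Pool.Agent.Lib.MP_7e4769_co.St.D352
import Pool.Agent.Lib.MP_7e4769_co.St.D353
import Pool.Agent.Lib.MP_7e4769_co.St.D354
import Pool.Agent.Lib.MP_7e4769_co.St.D355
import Pool.Agent.Lib.MP_7e4769_co.St.D356
import Pool.Agent.Lib.MP_7e4769_co.St.D357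
import Pool.Agent.Lib.MP_7e4769_co.St.D358
import Pool.Agent.Lib.MP_7e4769_co.St.D359
import Pool.Agent.Lib.MP_7e4769_co.St.D360
import Pool.Agent.Lib.MP_7e4769_co.St.D361
import Pool.Agent.Lib.MP_7e4769_co.St.D362
import Pool.Agent.Lib.MP_7e4769_co.St.D363
import Pool.Agent.Lib.MP_7e4769_co.St.D364
import Pool.Agent.Lib.MP_7e4769_co.St.D365
import Pool.Agent.Lib.MP_7e4769_co.St.D366
import Pool.Agent.Lib.MP_7e4769_co.St.D367
import Pool.Agent.Lib.MP_7e4769_co.St.D368
import Pool.Agent.Lib.MP_7e4769_co.St.D369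
import Pool.Agent.Lib.MP_7e4769_co.St.D370
import Pool.Agent.Lib.MP_7e4769_co.St.D371
import Pool.Agent.Lib.MP_7e4769_co.St.D372
import Pool.Agent.Lib.MP_7e4769_co.St.D373
import Pool.Agent.Lib.MP_7e4769_co.St.D374
import Pool.Agent.Lib.MP_7e4769_co.St.D375
import Pool.Agent.Lib.MP_7e4769_co.St.D376
import Pool.Agent.Lib.MP_7e4769_co.St.D377
import Pool.Agent.Lib.MP_7e4769_co.St.D378
import Pool.Agent.Lib.MP_7e4769_co.St.D379
import Pool.Agent.Lib.MP_7e4769_co.St.D380
import Pool.Agent.Lib.MP_7e4769_co.St.D381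
import Pool.Agent.Lib.MP_7e4769_co.St.D382
import Pool.Agent.Lib.MP_7e4769_co.St.D383
import Pool.Agent.Lib.MP_7e4769_co.St.D384
import Pool.Agent.Lib.MP_7e4769_co.St.D385
import Pool.Agent.Lib.MP_7e4769_co.St.D386
import Pool.Agent.Lib.MP_7e4769_co.St.D387
import Pool.Agent.Lib.MP_7e4769_co.St.D388
import Pool.Agent.Lib.MP_7e4769_co.St.D389
import Pool.Agent.Lib.MP_7e4769_co.St.D390
import Pool.Agent.Lib.MP_7e4769_co.St.D391
import Pool.Agent.Lib.MP_7e4769_co.St.D392
import Pool.Agent.Lib.MP_7e4769_co.St.D393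
import Pool.Agent.Lib.MP_7e4769_co.St.D394
import Pool.Agent.Lib.MP_7e4769_co.St.D395
import Pool.Agent.Lib.MP_7e4769_co.St.D396
import Pool.Agent.Lib.MP_7e4769_co.St.D397
import Pool.Agent.Lib.MP_7e4769_co.St.D398
import Pool.Agent.Lib.MP_7e4769_co.St.D399
import Pool.Agent.Lib.MP_7e4769_co.St.D400
import Pool.Agent.Lib.MP_7e4769_co.St.D401
import Pool.Agent.Lib.MP_7e4769_co.St.D402
import Pool.Agent.Lib.MP_7e4769_co.St.D403
import Pool.Agent.Lib.MP_7e4769_co.St.D404
import Pool.Agent.Lib.MP_7e4769_co.St.D405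
import Pool.Agent.Lib.MP_7e4769_co.St.D406
import Pool.Agent.Lib.MP_7e4769_co.St.D407
import Pool.Agent.Lib.MP_7e4769_co.St.D408
import Pool.Agent.Lib.MP_7e4769_co.St.D409
import Pool.Agent.Lib.MP_7e4769_co.St.D410
import Pool.Agent.Lib.MP_7e4769_co.St.D411
import Pool.Agent.Lib.MP_7e4769_co.St.D412
import Pool.Agent.Lib.MP_7e4769_co.St.D413
import Pool.Agent.Lib.MP_7e4769_co.St.D414
import Pool.Agent.Lib.MP_7e4769_co.St.D415
import Pool.Agent.Lib.MP_7e4769_co.St.D416
import Pool.Agent.Lib.MP_7e4769_co.St.D417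
import Pool.Agent.Lib.MP_7e4769_co.St.D418
import Pool.Agent.Lib.MP_7e4769_co.St.D419
import Pool.Agent.Lib.MP_7e4769_co.St.D420
import Pool.Agent.Lib.MP_7e4769_co.St.D421
import Pool.Agent.Lib.MP_7e4769_co.St.D422
import Pool.Agent.Lib.MP_7e4769_co.St.D423
import Pool.Agent.Lib.MP_7e4769_co.St.D424
import Pool.Agent.Lib.MP_7e4769_co.St.D425
import Pool.Agent.Lib.MP_7e4769_co.St.D426
import Pool.Agent.Lib.MP_7e4769_co.St.D427
import Pool.Agent.Lib.MP_7e4769_co.St.D428
import Pool.Agent.Lib.MP_7e4769_co.St.D429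
import Pool.Agent.Lib.MP_7e4769_co.St.D430
import Pool.Agent.Lib.MP_7e4769_co.St.D431
import Pool.Agent.Lib.MP_7e4769_co.St.D432
import Pool.Agent.Lib.MP_7e4769_co.St.D433
import Pool.Agent.Lib.MP_7e4769_co.St.D434
import Pool.Agent.Lib.MP_7e4769_co.St.D435
import Pool.Agent.Lib.MP_7e4769_co.St.D436
import Pool.Agent.Lib.MP_7e4769_co.St.D437
import Pool.Agent.Lib.MP_7e4769_co.St.D438
import Pool.Agent.Lib.MP_7e4769_co.St.D439
import Pool.Agent.Lib.MP_7e4769_co.St.D440
import Pool.Agent.Lib.MP_7e4769_co.St.D441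
import Pool.Agent.Lib.MP_7e4769_co.St.D442
import Pool.Agent.Lib.MP_7e4769_co.St.D443
import Pool.Agent.Lib.MP_7e4769_co.St.D444
import Pool.Agent.Lib.MP_7e4769_co.St.D445
import Pool.Agent.Lib.MP_7e4769_co.St.D446
import Pool.Agent.Lib.MP_7e4769_co.St.D447
import Pool.Agent.Lib.MP_7e4769_co.St.D448
import Pool.Agent.Lib.MP_7e4769_co.St.D449
import Pool.Agent.Lib.MP_7e4769_co.St.D450
import Pool.Agent.Lib.MP_7e4769_co.St.D451
import Pool.Agent.Lib.MP_7e4769_co.St.D452
import Pool.Agent.Lib.MP_7e4769_co.St.D453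
import Pool.Agent.Lib.MP_7e4769_co.St.D454
import Pool.Agent.Lib.MP_7e4769_co.St.D455
import Pool.Agent.Lib.MP_7e4769_co.St.D456
import Pool.Agent.Lib.MP_7e4769_co.St.D457
import Pool.Agent.Lib.MP_7e4769_co.St.D458
import Pool.Agent.Lib.MP_7e4769_co.St.D459
import Pool.Agent.Lib.MP_7e4769_co.St.D460
import Pool.Agent.Lib.MP_7e4769_co.St.D461
import Pool.Agent.Lib.MP_7e4769_co.St.D462
import Pool.Agent.Lib.MP_7e4769_co.St.D463
import Pool.Agent.Lib.MP_7e4769_co.St.D464
import Pool.Agent.Lib.MP_7e4769_co.St.D465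
import Pool.Agent.Lib.MP_7e4769_co.St.D466
import Pool.Agent.Lib.MP_7e4769_co.St.D467
import Pool.Agent.Lib.MP_7e4769_co.St.D468
import Pool.Agent.Lib.MP_7e4769_co.St.D469
import Pool.Agent.Lib.MP_7e4769_co.St.D470
import Pool.Agent.Lib.MP_7e4769_co.St.D471
import Pool.Agent.Lib.MP_7e4769_co.St.D472
import Pool.Agent.Lib.MP_7e4769_co.St.D473
import Pool.Agent.Lib.MP_7e4769_co.St.D474
import Pool.Agent.Lib.MP_7e4769_co.St.D475
import Pool.Agent.Lib.MP_7e4769_co.St.D476
import Pool.Agent.Lib.MP_7e4769_co.St.D477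
import Pool.Agent.Lib.MP_7e4769_co.St.D478
import Pool.Agent.Lib.MP_7e4769_co.St.D479
import Pool.Agent.Lib.MP_7e4769_co.St.D480
import Pool.Agent.Lib.MP_7e4769_co.St.D481
import Pool.Agent.Lib.MP_7e4769_co.St.D482
import Pool.Agent.Lib.MP_7e4769_co.St.D483
import Pool.Agent.Lib.MP_7e4769_co.St.D484
import Pool.Agent.Lib.MP_7e4769_co.St.D485
import Pool.Agent.Lib.MP_7e4769_co.St.D486
import Pool.Agent.Lib.MP_7e4769_co.St.D487
import Pool.Agent.Lib.MP_7e4769_co.St.D488
import Pool.Agent.Lib.MP_7e4769_co.St.D489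
import Pool.Agent.Lib.MP_7e4769_co.St.D490
import Pool.Agent.Lib.MP_7e4769_co.St.D491
import Pool.Agent.Lib.MP_7e4769_co.St.D492
import Pool.Agent.Lib.MP_7e4769_co.St.D493
import Pool.Agent.Lib.MP_7e4769_co.St.D494
import Pool.Agent.Lib.MP_7e4769_co.St.D495
import Pool.Agent.Lib.MP_7e4769_co.St.D496
import Pool.Agent.Lib.MP_7e4769_co.St.D497
import Pool.Agent.Lib.MP_7e4769_co.St.D498
import Pool.Agent.Lib.MP_7e4769_co.St.D499
import Pool.Agent.Lib.MP_7e4769_co.St.D500
import Pool.Agent.Lib.MP_7e4769_co.St.D501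
import Pool.Agent.Lib.MP_7e4769_co.St.D502
import Pool.Agent.Lib.MP_7e4769_co.St.D503
import Pool.Agent.Lib.MP_7e4769_co.St.D504
import Pool.Agent.Lib.MP_7e4769_co.St.D505
import Pool.Agent.Lib.MP_7e4769_co.St.D506
import Pool.Agent.Lib.MP_7e4769_co.St.D507
import Pool.Agent.Lib.MP_7e4769_co.St.D508
import Pool.Agent.Lib.MP_7e4769_co.St.D509
import Pool.Agent.Lib.MP_7e4769_co.St.D510
import Pool.Agent.Lib.MP_7e4769_co.St.D511
import Pool.Agent.Lib.MP_7e4769_co.St.D512
import Pool.Agent.Lib.MP_7e4769_co.St.D513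
import Pool.Agent.Lib.MP_7e4769_co.St.D514
import Pool.Agent.Lib.MP_7e4769_co.St.D515
import Pool.Agent.Lib.MP_7e4769_co.St.D516
import Pool.Agent.Lib.MP_7e4769_co.St.D517
import Pool.Agent.Lib.MP_7e4769_co.St.D518
import Pool.Agent.Lib.MP_7e4769_co.St.D519
import Pool.Agent.Lib.MP_7e4769_co.St.D520
import Pool.Agent.Lib.MP_7e4769_co.St.D521
import Pool.Agent.Lib.MP_7e4769_co.St.D522
import Pool.Agent.Lib.MP_7e4769_co.St.D523
import Pool.Agent.Lib.MP_7e4769_co.St.D524
import Pool.Agent.Lib.MP_7e4769_co.St.D525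
import Pool.Agent.Lib.MP_7e4769_co.St.D526
import Pool.Agent.Lib.MP_7e4769_co.St.D527
import Pool.Agent.Lib.MP_7e4769_co.St.D528
import Pool.Agent.Lib.MP_7e4769_co.St.D529
import Pool.Agent.Lib.MP_7e4769_co.St.D530
import Pool.Agent.Lib.MP_7e4769_co.St.D531
import Pool.Agent.Lib.MP_7e4769_co.St.D532
import Pool.Agent.Lib.MP_7e4769_co.St.D533
import Pool.Agent.Lib.MP_7e4769_co.St.D534
import Pool.Agent.Lib.MP_7e4769_co.St.D535
import Pool.Agent.Lib.MP_7e4769_co.St.D536
import Pool.Agent.Lib.MP_7e4769_co.St.D537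
import Pool.Agent.Lib.MP_7e4769_co.St.D538
import Pool.Agent.Lib.MP_7e4769_co.St.D539
import Pool.Agent.Lib.MP_7e4769_co.St.D540
import Pool.Agent.Lib.MP_7e4769_co.St.D541
import Pool.Agent.Lib.MP_7e4769_co.St.D542
import Pool.Agent.Lib.MP_7e4769_co.St.D543
import Pool.Agent.Lib.MP_7e4769_co.St.D544
import Pool.Agent.Lib.MP_7e4769_co.St.D545
import Pool.Agent.Lib.MP_7e4769_co.St.D546
import Pool.Agent.Lib.MP_7e4769_co.St.D547
import Pool.Agent.Lib.MP_7e4769_co.St.D548
import Pool.Agent.Lib.MP_7e4769_co.St.D549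
import Pool.Agent.Lib.MP_7e4769_co.St.D550
import Pool.Agent.Lib.MP_7e4769_co.St.D551
import Pool.Agent.Lib.MP_7e4769_co.St.D552
import Pool.Agent.Lib.MP_7e4769_co.St.D553
import Pool.Agent.Lib.MP_7e4769_co.St.D554
import Pool.Agent.Lib.MP_7e4769_co.St.D555
import Pool.Agent.Lib.MP_7e4769_co.St.D556
import Pool.Agent.Lib.MP_7e4769_co.St.D557
import Pool.Agent.Lib.MP_7e4769_co.St.D558
import Pool.Agent.Lib.MP_7e4769_co.St.D559
import Pool.Agent.Lib.MP_7e4769_co.St.D560
import Pool.Agent.Lib.MP_7e4769_co.St.D561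
import Pool.Agent.Lib.MP_7e4769_co.St.D562
import Pool.Agent.Lib.MP_7e4769_co.St.D563
import Pool.Agent.Lib.MP_7e4769_co.St.D564
import Pool.Agent.Lib.MP_7e4769_co.St.D565
import Pool.Agent.Lib.MP_7e4769_co.St.D566
import Pool.Agent.Lib.MP_7e4769_co.St.D567
import Pool.Agent.Lib.MP_7e4769_co.St.D568
import Pool.Agent.Lib.MP_7e4769_co.St.D569
import Pool.Agent.Lib.MP_7e4769_co.St.D570
import Pool.Agent.Lib.MP_7e4769_co.St.D571
import Pool.Agent.Lib.MP_7e4769_co.St.D572
import Pool.Agent.Lib.MP_7e4769_co.St.D573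
import Pool.Agent.Lib.MP_7e4769_co.St.D574
import Pool.Agent.Lib.MP_7e4769_co.St.D575
import Pool.Agent.Lib.MP_7e4769_co.St.D576
import Pool.Agent.Lib.MP_7e4769_co.St.D577
import Pool.Agent.Lib.MP_7e4769_co.St.D578
import Pool.Agent.Lib.MP_7e4769_co.St.D579
import Pool.Agent.Lib.MP_7e4769_co.St.D580
import Pool.Agent.Lib.MP_7e4769_co.St.D581
import Pool.Agent.Lib.MP_7e4769_co.St.D582
import Pool.Agent.Lib.MP_7e4769_co.St.D583
import Pool.Agent.Lib.MP_7e4769_co.St.D584
import Pool.Agent.Lib.MP_7e4769_co.St.D585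
import Pool.Agent.Lib.MP_7e4769_co.St.D586
import Pool.Agent.Lib.MP_7e4769_co.St.D587
import Pool.Agent.Lib.MP_7e4769_co.St.D588
import Pool.Agent.Lib.MP_7e4769_co.St.D589
import Pool.Agent.Lib.MP_7e4769_co.St.D590
import Pool.Agent.Lib.MP_7e4769_co.St.D591
import Pool.Agent.Lib.MP_7e4769_co.St.D592
import Pool.Agent.Lib.MP_7e4769_co.St.D593
import Pool.Agent.Lib.MP_7e4769_co.St.D594
import Pool.Agent.Lib.MP_7e4769_co.St.D595
import Pool.Agent.Lib.MP_7e4769_co.St.D596
import Pool.Agent.Lib.MP_7e4769_co.St.D597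
import Pool.Agent.Lib.MP_7e4769_co.St.D598
import Pool.Agent.Lib.MP_7e4769_co.St.D599
import Pool.Agent.Lib.MP_7e4769_co.St.D600
import Pool.Agent.Lib.MP_7e4769_co.St.D601
import Pool.Agent.Lib.MP_7e4769_co.St.D602
import Pool.Agent.Lib.MP_7e4769_co.St.D603
import Pool.Agent.Lib.MP_7e4769_co.St.D604
import Pool.Agent.Lib.MP_7e4769_co.St.D605
import Pool.Agent.Lib.MP_7e4769_co.St.D606
import Pool.Agent.Lib.MP_7e4769_co.St.D607
import Pool.Agent.Lib.MP_7e4769_co.St.D608
import Pool.Agent.Lib.MP_7e4769_co.St.D609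
import Pool.Agent.Lib.MP_7e4769_co.St.D610
import Pool.Agent.Lib.MP_7e4769_co.St.D611
import Pool.Agent.Lib.MP_7e4769_co.St.D612
import Pool.Agent.Lib.MP_7e4769_co.St.D613
import Pool.Agent.Lib.MP_7e4769_co.St.D614
import Pool.Agent.Lib.MP_7e4769_co.St.D615
import Pool.Agent.Lib.MP_7e4769_co.St.D616
import Pool.Agent.Lib.MP_7e4769_co.St.D617
import Pool.Agent.Lib.MP_7e4769_co.St.D618
import Pool.Agent.Lib.MP_7e4769_co.St.D619
import Pool.Agent.Lib.MP_7e4769_co.St.D620
import Pool.Agent.Lib.MP_7e4769_co.St.D621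
import Pool.Agent.Lib.MP_7e4769_co.St.D622
import Pool.Agent.Lib.MP_7e4769_co.St.D623
import Pool.Agent.Lib.MP_7e4769_co.St.D624
import Pool.Agent.Lib.MP_7e4769_co.St.D625
import Pool.Agent.Lib.MP_7e4769_co.St.D626
import Pool.Agent.Lib.MP_7e4769_co.St.D627
import Pool.Agent.Lib.MP_7e4769_co.St.D628
import Pool.Agent.Lib.MP_7e4769_co.St.D629
import Pool.Agent.Lib.MP_7e4769_co.St.D630
import Pool.Agent.Lib.MP_7e4769_co.St.D631
import Pool.Agent.Lib.MP_7e4769_co.St.D632
import Pool.Agent.Lib.MP_7e4769_co.St.D633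
import Pool.Agent.Lib.MP_7e4769_co.St.D634
import Pool.Agent.Lib.MP_7e4769_co.St.D635
import Pool.Agent.Lib.MP_7e4769_co.St.D636
import Pool.Agent.Lib.MP_7e4769_co.St.D637
import Pool.Agent.Lib.MP_7e4769_co.St.D638
import Pool.Agent.Lib.MP_7e4769_co.St.D639
import Pool.Agent.Lib.MP_7e4769_co.St.D640
import Pool.Agent.Lib.MP_7e4769_co.St.D641
import Pool.Agent.Lib.MP_7e4769_co.St.D642
import Pool.Agent.Lib.MP_7e4769_co.St.D643
import Pool.Agent.Lib.MP_7e4769_co.St.D644
import Pool.Agent.Lib.MP_7e4769_co.St.D645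
import Pool.Agent.Lib.MP_7e4769_co.St.D646
import Pool.Agent.Lib.MP_7e4769_co.St.D647
import Pool.Agent.Lib.MP_7e4769_co.St.D648
import Pool.Agent.Lib.MP_7e4769_co.St.D649
import Pool.Agent.Lib.MP_7e4769_co.St.D650
import Pool.Agent.Lib.MP_7e4769_co.St.D651
import Pool.Agent.Lib.MP_7e4769_co.St.D652
import Pool.Agent.Lib.MP_7e4769_co.St.D653
import Pool.Agent.Lib.MP_7e4769_co.St.D654
import Pool.Agent.Lib.MP_7e4769_co.St.D655
import Pool.Agent.Lib.MP_7e4769_co.St.D656
import Pool.Agent.Lib.MP_7e4769_co.St.D657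
import Pool.Agent.Lib.MP_7e4769_co.St.D658
import Pool.Agent.Lib.MP_7e4769_co.St.D659
import Pool.Agent.Lib.MP_7e4769_co.St.D660
import Pool.Agent.Lib.MP_7e4769_co.St.D661
import Pool.Agent.Lib.MP_7e4769_co.St.D662
import Pool.Agent.Lib.MP_7e4769_co.St.D663
import Pool.Agent.Lib.MP_7e4769_co.St.D664
import Pool.Agent.Lib.MP_7e4769_co.St.D665
import Pool.Agent.Lib.MP_7e4769_co.St.D666
import Pool.Agent.Lib.MP_7e4769_co.St.D667
import Pool.Agent.Lib.MP_7e4769_co.St.D668
import Pool.Agent.Lib.MP_7e4769_co.St.D669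
import Pool.Agent.Lib.MP_7e4769_co.St.D670
import Pool.Agent.Lib.MP_7e4769_co.St.D671
import Pool.Agent.Lib.MP_7e4769_co.St.D672
import Pool.Agent.Lib.MP_7e4769_co.St.D673
import Pool.Agent.Lib.MP_7e4769_co.St.D674
import Pool.Agent.Lib.MP_7e4769_co.St.D675
import Pool.Agent.Lib.MP_7e4769_co.St.D676
import Pool.Agent.Lib.MP_7e4769_co.St.D677
import Pool.Agent.Lib.MP_7e4769_co.St.D678
import Pool.Agent.Lib.MP_7e4769_co.St.D679
import Pool.Agent.Lib.MP_7e4769_co.St.D680
import Pool.Agent.Lib.MP_7e4769_co.St.D681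
import Pool.Agent.Lib.MP_7e4769_co.St.D682
import Pool.Agent.Lib.MP_7e4769_co.St.D683
import Pool.Agent.Lib.MP_7e4769_co.St.D684
import Pool.Agent.Lib.MP_7e4769_co.St.D685
import Pool.Agent.Lib.MP_7e4769_co.St.D686
import Pool.Agent.Lib.MP_7e4769_co.St.D687
import Pool.Agent.Lib.MP_7e4769_co.St.D688
import Pool.Agent.Lib.MP_7e4769_co.St.D689
import Pool.Agent.Lib.MP_7e4769_co.St.D690
import Pool.Agent.Lib.MP_7e4769_co.St.D691
import Pool.Agent.Lib.MP_7e4769_co.St.D692
import Pool.Agent.Lib.MP_7e4769_co.St.D693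
import Pool.Agent.Lib.MP_7e4769_co.St.D694
import Pool.Agent.Lib.MP_7e4769_co.St.D695
import Pool.Agent.Lib.MP_7e4769_co.St.D696
import Pool.Agent.Lib.MP_7e4769_co.St.D697
import Pool.Agent.Lib.MP_7e4769_co.St.D698
import Pool.Agent.Lib.MP_7e4769_co.St.D699
import Pool.Agent.Lib.MP_7e4769_co.St.D700
import Pool.Agent.Lib.MP_7e4769_co.St.D701
import Pool.Agent.Lib.MP_7e4769_co.St.D702
import Pool.Agent.Lib.MP_7e4769_co.St.D703
import Pool.Agent.Lib.MP_7e4769_co.St.D704
import Pool.Agent.Lib.MP_7e4769_co.St.D705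
import Pool.Agent.Lib.MP_7e4769_co.St.D706
import Pool.Agent.Lib.MP_7e4769_co.St.D707
import Pool.Agent.Lib.MP_7e4769_co.St.D708
import Pool.Agent.Lib.MP_7e4769_co.St.D709
import Pool.Agent.Lib.MP_7e4769_co.St.D710
import Pool.Agent.Lib.MP_7e4769_co.St.D711
import Pool.Agent.Lib.MP_7e4769_co.St.D712
import Pool.Agent.Lib.MP_7e4769_co.St.D713
import Pool.Agent.Lib.MP_7e4769_co.St.D714
import Pool.Agent.Lib.MP_7e4769_co.St.D715
import Pool.Agent.Lib.MP_7e4769_co.St.D716
import Pool.Agent.Lib.MP_7e4769_co.St.D717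
import Pool.Agent.Lib.MP_7e4769_co.St.D718
import Pool.Agent.Lib.MP_7e4769_co.St.D719
import Pool.Agent.Lib.MP_7e4769_co.St.D720
import Pool.Agent.Lib.MP_7e4769_co.St.D721
import Pool.Agent.Lib.MP_7e4769_co.St.D722
import Pool.Agent.Lib.MP_7e4769_co.St.D723
import Pool.Agent.Lib.MP_7e4769_co.St.D724
import Pool.Agent.Lib.MP_7e4769_co.St.D725
import Pool.Agent.Lib.MP_7e4769_co.St.D726
import Pool.Agent.Lib.MP_7e4769_co.St.D727
import Pool.Agent.Lib.MP_7e4769_co.St.D728
import Pool.Agent.Lib.MP_7e4769_co.St.D729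
import Pool.Agent.Lib.MP_7e4769_co.St.D730
import Pool.Agent.Lib.MP_7e4769_co.St.D731
import Pool.Agent.Lib.MP_7e4769_co.St.D732
import Pool.Agent.Lib.MP_7e4769_co.St.D733
import Pool.Agent.Lib.MP_7e4769_co.St.D734
import Pool.Agent.Lib.MP_7e4769_co.St.D735
import Pool.Agent.Lib.MP_7e4769_co.St.D736
import Pool.Agent.Lib.MP_7e4769_co.St.D737
import Pool.Agent.Lib.MP_7e4769_co.St.D738
import Pool.Agent.Lib.MP_7e4769_co.St.D739
import Pool.Agent.Lib.MP_7e4769_co.St.D740
import Pool.Agent.Lib.MP_7e4769_co.St.D741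
import Pool.Agent.Lib.MP_7e4769_co.St.D742
import Pool.Agent.Lib.MP_7e4769_co.St.D743
import Pool.Agent.Lib.MP_7e4769_co.St.D744
import Pool.Agent.Lib.MP_7e4769_co.St.D745
import Pool.Agent.Lib.MP_7e4769_co.St.D746
import Pool.Agent.Lib.MP_7e4769_co.St.D747
import Pool.Agent.Lib.MP_7e4769_co.St.D748
import Pool.Agent.Lib.MP_7e4769_co.St.D749
import Pool.Agent.Lib.MP_7e4769_co.St.D750
import Pool.Agent.Lib.MP_7e4769_co.St.D751
import Pool.Agent.Lib.MP_7e4769_co.St.D752
import Pool.Agent.Lib.MP_7e4769_co.St.D753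
import Pool.Agent.Lib.MP_7e4769_co.St.D754
import Pool.Agent.Lib.MP_7e4769_co.St.D755
import Pool.Agent.Lib.MP_7e4769_co.St.D756
import Pool.Agent.Lib.MP_7e4769_co.St.D757
import Pool.Agent.Lib.MP_7e4769_co.St.D758
import Pool.Agent.Lib.MP_7e4769_co.St.D759
import Pool.Agent.Lib.MP_7e4769_co.St.D760
import Pool.Agent.Lib.MP_7e4769_co.St.D761
import Pool.Agent.Lib.MP_7e4769_co.St.D762
import Pool.Agent.Lib.MP_7e4769_co.St.D763
import Pool.Agent.Lib.MP_7e4769_co.St.D764
import Pool.Agent.Lib.MP_7e4769_co.St.D765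
import Pool.Agent.Lib.MP_7e4769_co.St.D766
import Pool.Agent.Lib.MP_7e4769_co.St.D767
import Pool.Agent.Lib.MP_7e4769_co.St.D768
import Pool.Agent.Lib.MP_7e4769_co.St.D769
import Pool.Agent.Lib.MP_7e4769_co.St.D770
import Pool.Agent.Lib.MP_7e4769_co.St.D771
import Pool.Agent.Lib.MP_7e4769_co.St.D772
import Pool.Agent.Lib.MP_7e4769_co.St.D773
import Pool.Agent.Lib.MP_7e4769_co.St.D774
import Pool.Agent.Lib.MP_7e4769_co.St.D775
import Pool.Agent.Lib.MP_7e4769_co.St.D776
import Pool.Agent.Lib.MP_7e4769_co.St.D777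
import Pool.Agent.Lib.MP_7e4769_co.St.D778
import Pool.Agent.Lib.MP_7e4769_co.St.D779
import Pool.Agent.Lib.MP_7e4769_co.St.D780
import Pool.Agent.Lib.MP_7e4769_co.St.D781
import Pool.Agent.Lib.MP_7e4769_co.St.D782
import Pool.Agent.Lib.MP_7e4769_co.St.D783
import Pool.Agent.Lib.MP_7e4769_co.St.D784
import Pool.Agent.Lib.MP_7e4769_co.St.D785
import Pool.Agent.Lib.MP_7e4769_co.St.D786
import Pool.Agent.Lib.MP_7e4769_co.St.D787
import Pool.Agent.Lib.MP_7e4769_co.St.D788
import Pool.Agent.Lib.MP_7e4769_co.St.D789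
import Pool.Agent.Lib.MP_7e4769_co.St.D790
import Pool.Agent.Lib.MP_7e4769_co.St.D791
import Pool.Agent.Lib.MP_7e4769_co.St.D792
import Pool.Agent.Lib.MP_7e4769_co.St.D793
import Pool.Agent.Lib.MP_7e4769_co.St.D794
import Pool.Agent.Lib.MP_7e4769_co.St.D795
import Pool.Agent.Lib.MP_7e4769_co.St.D796
import Pool.Agent.Lib.MP_7e4769_co.St.D797
import Pool.Agent.Lib.MP_7e4769_co.St.D798
import Pool.Agent.Lib.MP_7e4769_co.St.D799
import Pool.Agent.Lib.MP_7e4769_co.St.D800
import Pool.Agent.Lib.MP_7e4769_co.St.D801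
import Pool.Agent.Lib.MP_7e4769_co.St.D802
import Pool.Agent.Lib.MP_7e4769_co.St.D803
import Pool.Agent.Lib.MP_7e4769_co.St.D804
import Pool.Agent.Lib.MP_7e4769_co.St.D805
import Pool.Agent.Lib.MP_7e4769_co.St.D806
import Pool.Agent.Lib.MP_7e4769_co.St.D807
import Pool.Agent.Lib.MP_7e4769_co.St.D808
import Pool.Agent.Lib.MP_7e4769_co.St.D809
import Pool.Agent.Lib.MP_7e4769_co.St.D810
import Pool.Agent.Lib.MP_7e4769_co.St.D811
import Pool.Agent.Lib.MP_7e4769_co.St.D812
import Pool.Agent.Lib.MP_7e4769_co.St.D813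
import Pool.Agent.Lib.MP_7e4769_co.St.D814
import Pool.Agent.Lib.MP_7e4769_co.St.D815
import Pool.Agent.Lib.MP_7e4769_co.St.D816
import Pool.Agent.Lib.MP_7e4769_co.St.D817
import Pool.Agent.Lib.MP_7e4769_co.St.D818
import Pool.Agent.Lib.MP_7e4769_co.St.D819
import Pool.Agent.Lib.MP_7e4769_co.St.D820
import Pool.Agent.Lib.MP_7e4769_co.St.D821
import Pool.Agent.Lib.MP_7e4769_co.St.D822
import Pool.Agent.Lib.MP_7e4769_co.St.D823
import Pool.Agent.Lib.MP_7e4769_co.St.D824
import Pool.Agent.Lib.MP_7e4769_co.St.D825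
import Pool.Agent.Lib.MP_7e4769_co.St.D826
import Pool.Agent.Lib.MP_7e4769_co.St.D827
import Pool.Agent.Lib.MP_7e4769_co.St.D828
import Pool.Agent.Lib.MP_7e4769_co.St.D829
import Pool.Agent.Lib.MP_7e4769_co.St.D830
import Pool.Agent.Lib.MP_7e4769_co.St.D831
import Pool.Agent.Lib.MP_7e4769_co.St.D832
import Pool.Agent.Lib.MP_7e4769_co.St.D833
import Pool.Agent.Lib.MP_7e4769_co.St.D834
import Pool.Agent.Lib.MP_7e4769_co.St.D835
import Pool.Agent.Lib.MP_7e4769_co.St.D836
import Pool.Agent.Lib.MP_7e4769_co.St.D837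
import Pool.Agent.Lib.MP_7e4769_co.St.D838
import Pool.Agent.Lib.MP_7e4769_co.St.D839
import Pool.Agent.Lib.MP_7e4769_co.St.D840
import Pool.Agent.Lib.MP_7e4769_co.St.D841
import Pool.Agent.Lib.MP_7e4769_co.St.D842
import Pool.Agent.Lib.MP_7e4769_co.St.D843
import Pool.Agent.Lib.MP_7e4769_co.St.D844
import Pool.Agent.Lib.MP_7e4769_co.St.D845
import Pool.Agent.Lib.MP_7e4769_co.St.D846
import Pool.Agent.Lib.MP_7e4769_co.St.D847
import Pool.Agent.Lib.MP_7e4769_co.St.D848
import Pool.Agent.Lib.MP_7e4769_co.St.D849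
import Pool.Agent.Lib.MP_7e4769_co.St.D850
import Pool.Agent.Lib.MP_7e4769_co.St.D851
import Pool.Agent.Lib.MP_7e4769_co.St.D852
import Pool.Agent.Lib.MP_7e4769_co.St.D853
import Pool.Agent.Lib.MP_7e4769_co.St.D854
import Pool.Agent.Lib.MP_7e4769_co.St.D855
import Pool.Agent.Lib.MP_7e4769_co.St.D856
import Pool.Agent.Lib.MP_7e4769_co.St.D857
import Pool.Agent.Lib.MP_7e4769_co.St.D858
import Pool.Agent.Lib.MP_7e4769_co.St.D859
import Pool.Agent.Lib.MP_7e4769_co.St.D860
import Pool.Agent.Lib.MP_7e4769_co.St.D861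
import Pool.Agent.Lib.MP_7e4769_co.St.D862
import Pool.Agent.Lib.MP_7e4769_co.St.D863
import Pool.Agent.Lib.MP_7e4769_co.St.D864
import Pool.Agent.Lib.MP_7e4769_co.St.D865
import Pool.Agent.Lib.MP_7e4769_co.St.D866
import Pool.Agent.Lib.MP_7e4769_co.St.D867
import Pool.Agent.Lib.MP_7e4769_co.St.D868
import Pool.Agent.Lib.MP_7e4769_co.St.D869
import Pool.Agent.Lib.MP_7e4769_co.St.D870
import Pool.Agent.Lib.MP_7e4769_co.St.D871
import Pool.Agent.Lib.MP_7e4769_co.St.D872
import Pool.Agent.Lib.MP_7e4769_co.St.D873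
import Pool.Agent.Lib.MP_7e4769_co.St.D874
import Pool.Agent.Lib.MP_7e4769_co.St.D875
import Pool.Agent.Lib.MP_7e4769_co.St.D876
import Pool.Agent.Lib.MP_7e4769_co.St.D877
import Pool.Agent.Lib.MP_7e4769_co.St.D878
import Pool.Agent.Lib.MP_7e4769_co.St.D879
import Pool.Agent.Lib.MP_7e4769_co.St.D880
import Pool.Agent.Lib.MP_7e4769_co.St.D881
import Pool.Agent.Lib.MP_7e4769_co.St.D882
import Pool.Agent.Lib.MP_7e4769_co.St.D883
import Pool.Agent.Lib.MP_7e4769_co.St.D884
import Pool.Agent.Lib.MP_7e4769_co.St.D885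
import Pool.Agent.Lib.MP_7e4769_co.St.D886
import Pool.Agent.Lib.MP_7e4769_co.St.D887
import Pool.Agent.Lib.MP_7e4769_co.St.D888
import Pool.Agent.Lib.MP_7e4769_co.St.D889
import Pool.Agent.Lib.MP_7e4769_co.St.D890
import Pool.Agent.Lib.MP_7e4769_co.St.D891
import Pool.Agent.Lib.MP_7e4769_co.St.D892
import Pool.Agent.Lib.MP_7e4769_co.St.D893
import Pool.Agent.Lib.MP_7e4769_co.St.D894
import Pool.Agent.Lib.MP_7e4769_co.St.D895
import Pool.Agent.Lib.MP_7e4769_co.St.D896
import Pool.Agent.Lib.MP_7e4769_co.St.D897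
import Pool.Agent.Lib.MP_7e4769_co.St.D898
import Pool.Agent.Lib.MP_7e4769_co.St.D899
import Pool.Agent.Lib.MP_7e4769_co.St.D900
import Pool.Agent.Lib.MP_7e4769_co.St.D901
import Pool.Agent.Lib.MP_7e4769_co.St.D902
import Pool.Agent.Lib.MP_7e4769_co.St.D903
import Pool.Agent.Lib.MP_7e4769_co.St.D904
import Pool.Agent.Lib.MP_7e4769_co.St.D905
import Pool.Agent.Lib.MP_7e4769_co.St.D906
import Pool.Agent.Lib.MP_7e4769_co.St.D907
import Pool.Agent.Lib.MP_7e4769_co.St.D908
import Pool.Agent.Lib.MP_7e4769_co.St.D909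
import Pool.Agent.Lib.MP_7e4769_co.St.D910
import Pool.Agent.Lib.MP_7e4769_co.St.D911
import Pool.Agent.Lib.MP_7e4769_co.St.D912
import Pool.Agent.Lib.MP_7e4769_co.St.D913
import Pool.Agent.Lib.MP_7e4769_co.St.D914
import Pool.Agent.Lib.MP_7e4769_co.St.D915
import Pool.Agent.Lib.MP_7e4769_co.St.D916
import Pool.Agent.Lib.MP_7e4769_co.St.D917
import Pool.Agent.Lib.MP_7e4769_co.St.D918
import Pool.Agent.Lib.MP_7e4769_co.St.D919
import Pool.Agent.Lib.MP_7e4769_co.St.D920
import Pool.Agent.Lib.MP_7e4769_co.St.D921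
import Pool.Agent.Lib.MP_7e4769_co.St.D922
import Pool.Agent.Lib.MP_7e4769_co.St.D923
import Pool.Agent.Lib.MP_7e4769_co.St.D924
import Pool.Agent.Lib.MP_7e4769_co.St.D925
import Pool.Agent.Lib.MP_7e4769_co.St.D926
import Pool.Agent.Lib.MP_7e4769_co.St.D927
import Pool.Agent.Lib.MP_7e4769_co.St.D928
import Pool.Agent.Lib.MP_7e4769_co.St.D929
import Pool.Agent.Lib.MP_7e4769_co.St.D930
import Pool.Agent.Lib.MP_7e4769_co.St.D931
import Pool.Agent.Lib.MP_7e4769_co.St.D932
import Pool.Agent.Lib.MP_7e4769_co.St.D933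
import Pool.Agent.Lib.MP_7e4769_co.St.D934
import Pool.Agent.Lib.MP_7e4769_co.St.D935
import Pool.Agent.Lib.MP_7e4769_co.St.D936
import Pool.Agent.Lib.MP_7e4769_co.St.D937
import Pool.Agent.Lib.MP_7e4769_co.St.D938
import Pool.Agent.Lib.MP_7e4769_co.St.D939
import Pool.Agent.Lib.MP_7e4769_co.St.D940
import Pool.Agent.Lib.MP_7e4769_co.St.D941
import Pool.Agent.Lib.MP_7e4769_co.St.D942
import Pool.Agent.Lib.MP_7e4769_co.St.D943
import Pool.Agent.Lib.MP_7e4769_co.St.D944
import Pool.Agent.Lib.MP_7e4769_co.St.D945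
import Pool.Agent.Lib.MP_7e4769_co.St.D946
import Pool.Agent.Lib.MP_7e4769_co.St.D947
import Pool.Agent.Lib.MP_7e4769_co.St.D948
import Pool.Agent.Lib.MP_7e4769_co.St.D949
import Pool.Agent.Lib.MP_7e4769_co.St.D950
import Pool.Agent.Lib.MP_7e4769_co.St.D951
import Pool.Agent.Lib.MP_7e4769_co.St.D952
import Pool.Agent.Lib.MP_7e4769_co.St.D953
import Pool.Agent.Lib.MP_7e4769_co.St.D954
import Pool.Agent.Lib.MP_7e4769_co.St.D955
import Pool.Agent.Lib.MP_7e4769_co.St.D956
import Pool.Agent.Lib.MP_7e4769_co.St.D957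
import Pool.Agent.Lib.MP_7e4769_co.St.D958
import Pool.Agent.Lib.MP_7e4769_co.St.D959
import Pool.Agent.Lib.MP_7e4769_co.St.D960
import Pool.Agent.Lib.MP_7e4769_co.St.D961
import Pool.Agent.Lib.MP_7e4769_co.St.D962
import Pool.Agent.Lib.MP_7e4769_co.St.D963
import Pool.Agent.Lib.MP_7e4769_co.St.D964
import Pool.Agent.Lib.MP_7e4769_co.St.D965
import Pool.Agent.Lib.MP_7e4769_co.St.D966
import Pool.Agent.Lib.MP_7e4769_co.St.D967
import Pool.Agent.Lib.MP_7e4769_co.St.D968
import Pool.Agent.Lib.MP_7e4769_co.St.D969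
import Pool.Agent.Lib.MP_7e4769_co.St.D970
import Pool.Agent.Lib.MP_7e4769_co.St.D971
import Pool.Agent.Lib.MP_7e4769_co.St.D972
import Pool.Agent.Lib.MP_7e4769_co.St.D973
import Pool.Agent.Lib.MP_7e4769_co.St.D974
import Pool.Agent.Lib.MP_7e4769_co.St.D975
import Pool.Agent.Lib.MP_7e4769_co.St.D976
import Pool.Agent.Lib.MP_7e4769_co.St.D977
import Pool.Agent.Lib.MP_7e4769_co.St.D978
import Pool.Agent.Lib.MP_7e4769_co.St.D979
import Pool.Agent.Lib.MP_7e4769_co.St.D980
import Pool.Agent.Lib.MP_7e4769_co.St.D981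
import Pool.Agent.Lib.MP_7e4769_co.St.D982
import Pool.Agent.Lib.MP_7e4769_co.St.D983
import Pool.Agent.Lib.MP_7e4769_co.St.D984
import Pool.Agent.Lib.MP_7e4769_co.St.D985
import Pool.Agent.Lib.MP_7e4769_co.St.D986
import Pool.Agent.Lib.MP_7e4769_co.St.D987
import Pool.Agent.Lib.MP_7e4769_co.St.D988
import Pool.Agent.Lib.MP_7e4769_co.St.D989
import Pool.Agent.Lib.MP_7e4769_co.St.D990
import Pool.Agent.Lib.MP_7e4769_co.St.D991
import Pool.Agent.Lib.MP_7e4769_co.St.D992
import Pool.Agent.Lib.MP_7e4769_co.St.D993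
import Pool.Agent.Lib.MP_7e4769_co.St.D994
import Pool.Agent.Lib.MP_7e4769_co.St.D995
import Pool.Agent.Lib.MP_7e4769_co.St.D996
import Pool.Agent.Lib.MP_7e4769_co.St.D997
import Pool.Agent.Lib.MP_7e4769_co.St.D998
import Pool.Agent.Lib.MP_7e4769_co.St.D999
import Pool.Agent.Lib.MP_7e4769_co.St.D1000
import Pool.Agent.Lib.MP_7e4769_co.St.D1001
import Pool.Agent.Lib.MP_7e4769_co.St.D1002
import Pool.Agent.Lib.MP_7e4769_co.St.D1003
import Pool.Agent.Lib.MP_7e4769_co.St.D1004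
import Pool.Agent.Lib.MP_7e4769_co.St.D1005
import Pool.Agent.Lib.MP_7e4769_co.St.D1006
import Pool.Agent.Lib.MP_7e4769_co.St.D1007
import Pool.Agent.Lib.MP_7e4769_co.St.D1008
import Pool.Agent.Lib.MP_7e4769_co.St.D1009
import Pool.Agent.Lib.MP_7e4769_co.St.D1010
import Pool.Agent.Lib.MP_7e4769_co.St.D1011
import Pool.Agent.Lib.MP_7e4769_co.St.D1012
import Pool.Agent.Lib.MP_7e4769_co.St.D1013
import Pool.Agent.Lib.MP_7e4769_co.St.D1014
import Pool.Agent.Lib.MP_7e4769_co.St.D1015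
import Pool.Agent.Lib.MP_7e4769_co.St.D1016
import Pool.Agent.Lib.MP_7e4769_co.St.D1017
import Pool.Agent.Lib.MP_7e4769_co.St.D1018
import Pool.Agent.Lib.MP_7e4769_co.St.D1019
import Pool.Agent.Lib.MP_7e4769_co.St.D1020
import Pool.Agent.Lib.MP_7e4769_co.St.D1021
import Pool.Agent.Lib.MP_7e4769_co.St.D1022
import Pool.Agent.Lib.MP_7e4769_co.St.D1023
import Pool.Agent.Lib.MP_7e4769_co.St.D1024
import Pool.Agent.Lib.MP_7e4769_co.St.D1025
import Pool.Agent.Lib.MP_7e4769_co.St.D1026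
import Pool.Agent.Lib.MP_7e4769_co.St.D1027
import Pool.Agent.Lib.MP_7e4769_co.St.D1028
import Pool.Agent.Lib.MP_7e4769_co.St.D1029
import Pool.Agent.Lib.MP_7e4769_co.St.D1030
import Pool.Agent.Lib.MP_7e4769_co.St.D1031
import Pool.Agent.Lib.MP_7e4769_co.St.D1032
import Pool.Agent.Lib.MP_7e4769_co.St.D1033
import Pool.Agent.Lib.MP_7e4769_co.St.D1034
import Pool.Agent.Lib.MP_7e4769_co.St.D1035
import Pool.Agent.Lib.MP_7e4769_co.St.D1036
import Pool.Agent.Lib.MP_7e4769_co.St.D1037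
import Pool.Agent.Lib.MP_7e4769_co.St.D1038
import Pool.Agent.Lib.MP_7e4769_co.St.D1039
import Pool.Agent.Lib.MP_7e4769_co.St.D1040
import Pool.Agent.Lib.MP_7e4769_co.St.D1041
import Pool.Agent.Lib.MP_7e4769_co.St.D1042
import Pool.Agent.Lib.MP_7e4769_co.St.D1043
import Pool.Agent.Lib.MP_7e4769_co.St.D1044
import Pool.Agent.Lib.MP_7e4769_co.St.D1045
import Pool.Agent.Lib.MP_7e4769_co.St.D1046
import Pool.Agent.Lib.MP_7e4769_co.St.D1047
import Pool.Agent.Lib.MP_7e4769_co.St.D1048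
import Pool.Agent.Lib.MP_7e4769_co.St.D1049
import Pool.Agent.Lib.MP_7e4769_co.St.D1050
import Pool.Agent.Lib.MP_7e4769_co.St.D1051
import Pool.Agent.Lib.MP_7e4769_co.St.D1052
import Pool.Agent.Lib.MP_7e4769_co.St.D1053
import Pool.Agent.Lib.MP_7e4769_co.St.D1054
import Pool.Agent.Lib.MP_7e4769_co.St.D1055
import Pool.Agent.Lib.MP_7e4769_co.St.D1056
import Pool.Agent.Lib.MP_7e4769_co.St.D1057
import Pool.Agent.Lib.MP_7e4769_co.St.D1058
import Pool.Agent.Lib.MP_7e4769_co.St.D1059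
import Pool.Agent.Lib.MP_7e4769_co.St.D1060
import Pool.Agent.Lib.MP_7e4769_co.St.D1061
import Pool.Agent.Lib.MP_7e4769_co.St.D1062
import Pool.Agent.Lib.MP_7e4769_co.St.D1063
import Pool.Agent.Lib.MP_7e4769_co.St.D1064
import Pool.Agent.Lib.MP_7e4769_co.St.D1065
import Pool.Agent.Lib.MP_7e4769_co.St.D1066
import Pool.Agent.Lib.MP_7e4769_co.St.D1067
import Pool.Agent.Lib.MP_7e4769_co.St.D1068
import Pool.Agent.Lib.MP_7e4769_co.St.D1069
import Pool.Agent.Lib.MP_7e4769_co.St.D1070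
import Pool.Agent.Lib.MP_7e4769_co.St.D1071
import Pool.Agent.Lib.MP_7e4769_co.St.D1072
import Pool.Agent.Lib.MP_7e4769_co.St.D1073
import Pool.Agent.Lib.MP_7e4769_co.St.D1074
import Pool.Agent.Lib.MP_7e4769_co.St.D1075
import Pool.Agent.Lib.MP_7e4769_co.St.D1076
import Pool.Agent.Lib.MP_7e4769_co.St.D1077
import Pool.Agent.Lib.MP_7e4769_co.St.D1078
import Pool.Agent.Lib.MP_7e4769_co.St.D1079
import Pool.Agent.Lib.MP_7e4769_co.St.D1080
import Pool.Agent.Lib.MP_7e4769_co.St.D1081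
import Pool.Agent.Lib.MP_7e4769_co.St.D1082
import Pool.Agent.Lib.MP_7e4769_co.St.D1083
import Pool.Agent.Lib.MP_7e4769_co.St.D1084
import Pool.Agent.Lib.MP_7e4769_co.St.D1085
import Pool.Agent.Lib.MP_7e4769_co.St.D1086
import Pool.Agent.Lib.MP_7e4769_co.St.D1087
import Pool.Agent.Lib.MP_7e4769_co.St.D1088
import Pool.Agent.Lib.MP_7e4769_co.St.D1089
import Pool.Agent.Lib.MP_7e4769_co.St.D1090
import Pool.Agent.Lib.MP_7e4769_co.St.D1091
import Pool.Agent.Lib.MP_7e4769_co.St.D1092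
import Pool.Agent.Lib.MP_7e4769_co.St.D1093
import Pool.Agent.Lib.MP_7e4769_co.St.D1094
import Pool.Agent.Lib.MP_7e4769_co.St.D1095
import Pool.Agent.Lib.MP_7e4769_co.St.D1096
import Pool.Agent.Lib.MP_7e4769_co.St.D1097
import Pool.Agent.Lib.MP_7e4769_co.St.D1098
import Pool.Agent.Lib.MP_7e4769_co.St.D1099
import Pool.Agent.Lib.MP_7e4769_co.St.D1100
import Pool.Agent.Lib.MP_7e4769_co.St.D1101
import Pool.Agent.Lib.MP_7e4769_co.St.D1102
import Pool.Agent.Lib.MP_7e4769_co.St.D1103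
import Pool.Agent.Lib.MP_7e4769_co.St.D1104
import Pool.Agent.Lib.MP_7e4769_co.St.D1105
import Pool.Agent.Lib.MP_7e4769_co.St.D1106
import Pool.Agent.Lib.MP_7e4769_co.St.D1107
import Pool.Agent.Lib.MP_7e4769_co.St.D1108
import Pool.Agent.Lib.MP_7e4769_co.St.D1109
import Pool.Agent.Lib.MP_7e4769_co.St.D1110
import Pool.Agent.Lib.MP_7e4769_co.St.D1111
import Pool.Agent.Lib.MP_7e4769_co.St.D1112
import Pool.Agent.Lib.MP_7e4769_co.St.D1113
import Pool.Agent.Lib.MP_7e4769_co.St.D1114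
import Pool.Agent.Lib.MP_7e4769_co.St.D1115
import Pool.Agent.Lib.MP_7e4769_co.St.D1116
import Pool.Agent.Lib.MP_7e4769_co.St.D1117
import Pool.Agent.Lib.MP_7e4769_co.St.D1118
import Pool.Agent.Lib.MP_7e4769_co.St.D1119
import Pool.Agent.Lib.MP_7e4769_co.St.D1120
import Pool.Agent.Lib.MP_7e4769_co.St.D1121
import Pool.Agent.Lib.MP_7e4769_co.St.D1122
import Pool.Agent.Lib.MP_7e4769_co.St.D1123
import Pool.Agent.Lib.MP_7e4769_co.St.D1124
import Pool.Agent.Lib.MP_7e4769_co.St.D1125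
import Pool.Agent.Lib.MP_7e4769_co.St.D1126
import Pool.Agent.Lib.MP_7e4769_co.St.D1127
import Pool.Agent.Lib.MP_7e4769_co.St.D1128
import Pool.Agent.Lib.MP_7e4769_co.St.D1129
import Pool.Agent.Lib.MP_7e4769_co.St.D1130
import Pool.Agent.Lib.MP_7e4769_co.St.D1131
import Pool.Agent.Lib.MP_7e4769_co.St.D1132
import Pool.Agent.Lib.MP_7e4769_co.St.D1133
import Pool.Agent.Lib.MP_7e4769_co.St.D1134
import Pool.Agent.Lib.MP_7e4769_co.St.D1135
import Pool.Agent.Lib.MP_7e4769_co.St.D1136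
import Pool.Agent.Lib.MP_7e4769_co.St.D1137
import Pool.Agent.Lib.MP_7e4769_co.St.D1138
import Pool.Agent.Lib.MP_7e4769_co.St.D1139
import Pool.Agent.Lib.MP_7e4769_co.St.D1140
import Pool.Agent.Lib.MP_7e4769_co.St.D1141
import Pool.Agent.Lib.MP_7e4769_co.St.D1142
import Pool.Agent.Lib.MP_7e4769_co.St.D1143
import Pool.Agent.Lib.MP_7e4769_co.St.D1144
import Pool.Agent.Lib.MP_7e4769_co.St.D1145
import Pool.Agent.Lib.MP_7e4769_co.St.D1146
import Pool.Agent.Lib.MP_7e4769_co.St.D1147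
import Pool.Agent.Lib.MP_7e4769_co.St.D1148
import Pool.Agent.Lib.MP_7e4769_co.St.D1149
import Pool.Agent.Lib.MP_7e4769_co.St.D1150
import Pool.Agent.Lib.MP_7e4769_co.St.D1151
import Pool.Agent.Lib.MP_7e4769_co.St.D1152
import Pool.Agent.Lib.MP_7e4769_co.St.D1153
import Pool.Agent.Lib.MP_7e4769_co.St.D1154
import Pool.Agent.Lib.MP_7e4769_co.St.D1155
import Pool.Agent.Lib.MP_7e4769_co.St.D1156
import Pool.Agent.Lib.MP_7e4769_co.St.D1157
import Pool.Agent.Lib.MP_7e4769_co.St.D1158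
import Pool.Agent.Lib.MP_7e4769_co.St.D1159
import Pool.Agent.Lib.MP_7e4769_co.St.D1160
import Pool.Agent.Lib.MP_7e4769_co.St.D1161
import Pool.Agent.Lib.MP_7e4769_co.St.D1162
import Pool.Agent.Lib.MP_7e4769_co.St.D1163
import Pool.Agent.Lib.MP_7e4769_co.St.D1164
import Pool.Agent.Lib.MP_7e4769_co.St.D1165
import Pool.Agent.Lib.MP_7e4769_co.St.D1166
import Pool.Agent.Lib.MP_7e4769_co.St.D1167
import Pool.Agent.Lib.MP_7e4769_co.St.D1168
import Pool.Agent.Lib.MP_7e4769_co.St.D1169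
import Pool.Agent.Lib.MP_7e4769_co.St.D1170
import Pool.Agent.Lib.MP_7e4769_co.St.D1171
import Pool.Agent.Lib.MP_7e4769_co.St.D1172
import Pool.Agent.Lib.MP_7e4769_co.St.D1173
import Pool.Agent.Lib.MP_7e4769_co.St.D1174
import Pool.Agent.Lib.MP_7e4769_co.St.D1175
import Pool.Agent.Lib.MP_7e4769_co.St.D1176
import Pool.Agent.Lib.MP_7e4769_co.St.D1177
import Pool.Agent.Lib.MP_7e4769_co.St.D1178
import Pool.Agent.Lib.MP_7e4769_co.St.D1179
import Pool.Agent.Lib.MP_7e4769_co.St.D1180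
import Pool.Agent.Lib.MP_7e4769_co.St.D1181
import Pool.Agent.Lib.MP_7e4769_co.St.D1182
import Pool.Agent.Lib.MP_7e4769_co.St.D1183
import Pool.Agent.Lib.MP_7e4769_co.St.D1184
import Pool.Agent.Lib.MP_7e4769_co.St.D1185
import Pool.Agent.Lib.MP_7e4769_co.St.D1186
import Pool.Agent.Lib.MP_7e4769_co.St.D1187
import Pool.Agent.Lib.MP_7e4769_co.St.D1188
import Pool.Agent.Lib.MP_7e4769_co.St.D1189
import Pool.Agent.Lib.MP_7e4769_co.St.D1190
import Pool.Agent.Lib.MP_7e4769_co.St.D1191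
import Pool.Agent.Lib.MP_7e4769_co.St.D1192
import Pool.Agent.Lib.MP_7e4769_co.St.D1193
import Pool.Agent.Lib.MP_7e4769_co.St.D1194
import Pool.Agent.Lib.MP_7e4769_co.St.D1195
import Pool.Agent.Lib.MP_7e4769_co.St.D1196
import Pool.Agent.Lib.MP_7e4769_co.St.D1197
import Pool.Agent.Lib.MP_7e4769_co.St.D1198
import Pool.Agent.Lib.MP_7e4769_co.St.D1199
import Pool.Agent.Lib.MP_7e4769_co.St.D1200
import Pool.Agent.Lib.MP_7e4769_co.St.D1201
import Pool.Agent.Lib.MP_7e4769_co.St.D1202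
import Pool.Agent.Lib.MP_7e4769_co.St.D1203
import Pool.Agent.Lib.MP_7e4769_co.St.D1204
import Pool.Agent.Lib.MP_7e4769_co.St.D1205
import Pool.Agent.Lib.MP_7e4769_co.St.D1206
import Pool.Agent.Lib.MP_7e4769_co.St.D1207
import Pool.Agent.Lib.MP_7e4769_co.St.D1208
import Pool.Agent.Lib.MP_7e4769_co.St.D1209
import Pool.Agent.Lib.MP_7e4769_co.St.D1210
import Pool.Agent.Lib.MP_7e4769_co.St.D1211
import Pool.Agent.Lib.MP_7e4769_co.St.D1212
import Pool.Agent.Lib.MP_7e4769_co.St.D1213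
import Pool.Agent.Lib.MP_7e4769_co.St.D1214
import Pool.Agent.Lib.MP_7e4769_co.St.D1215
import Pool.Agent.Lib.MP_7e4769_co.St.D1216
import Pool.Agent.Lib.MP_7e4769_co.St.D1217
import Pool.Agent.Lib.MP_7e4769_co.St.D1218
import Pool.Agent.Lib.MP_7e4769_co.St.D1219
import Pool.Agent.Lib.MP_7e4769_co.St.D1220
import Pool.Agent.Lib.MP_7e4769_co.St.D1221
import Pool.Agent.Lib.MP_7e4769_co.St.D1222
import Pool.Agent.Lib.MP_7e4769_co.St.D1223
import Pool.Agent.Lib.MP_7e4769_co.St.D1224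
import Pool.Agent.Lib.MP_7e4769_co.St.D1225
import Pool.Agent.Lib.MP_7e4769_co.St.D1226
import Pool.Agent.Lib.MP_7e4769_co.St.D1227
import Pool.Agent.Lib.MP_7e4769_co.St.D1228
import Pool.Agent.Lib.MP_7e4769_co.St.D1229
import Pool.Agent.Lib.MP_7e4769_co.St.D1230
import Pool.Agent.Lib.MP_7e4769_co.St.D1231
import Pool.Agent.Lib.MP_7e4769_co.St.D1232
import Pool.Agent.Lib.MP_7e4769_co.St.D1233
import Pool.Agent.Lib.MP_7e4769_co.St.D1234
import Pool.Agent.Lib.MP_7e4769_co.St.D1235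
import Pool.Agent.Lib.MP_7e4769_co.St.D1236
import Pool.Agent.Lib.MP_7e4769_co.St.D1237
import Pool.Agent.Lib.MP_7e4769_co.St.D1238
import Pool.Agent.Lib.MP_7e4769_co.St.D1239
import Pool.Agent.Lib.MP_7e4769_co.St.D1240
import Pool.Agent.Lib.MP_7e4769_co.St.D1241
import Pool.Agent.Lib.MP_7e4769_co.St.D1242
import Pool.Agent.Lib.MP_7e4769_co.St.D1243
import Pool.Agent.Lib.MP_7e4769_co.St.D1244
import Pool.Agent.Lib.MP_7e4769_co.St.D1245
import Pool.Agent.Lib.MP_7e4769_co.St.D1246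
import Pool.Agent.Lib.MP_7e4769_co.St.D1247
import Pool.Agent.Lib.MP_7e4769_co.St.D1248
import Pool.Agent.Lib.MP_7e4769_co.St.D1249
import Pool.Agent.Lib.MP_7e4769_co.St.D1250
import Pool.Agent.Lib.MP_7e4769_co.St.D1251
import Pool.Agent.Lib.MP_7e4769_co.St.D1252
import Pool.Agent.Lib.MP_7e4769_co.St.D1253
import Pool.Agent.Lib.MP_7e4769_co.St.D1254
import Pool.Agent.Lib.MP_7e4769_co.St.D1255
import Pool.Agent.Lib.MP_7e4769_co.St.D1256
import Pool.Agent.Lib.MP_7e4769_co.St.D1257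
import Pool.Agent.Lib.MP_7e4769_co.St.D1258
import Pool.Agent.Lib.MP_7e4769_co.St.D1259
import Pool.Agent.Lib.MP_7e4769_co.St.D1260
import Pool.Agent.Lib.MP_7e4769_co.St.D1261
import Pool.Agent.Lib.MP_7e4769_co.St.D1262
import Pool.Agent.Lib.MP_7e4769_co.St.D1263
import Pool.Agent.Lib.MP_7e4769_co.St.D1264
import Pool.Agent.Lib.MP_7e4769_co.St.D1265
import Pool.Agent.Lib.MP_7e4769_co.St.D1266
import Pool.Agent.Lib.MP_7e4769_co.St.D1267
import Pool.Agent.Lib.MP_7e4769_co.St.D1268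
import Pool.Agent.Lib.MP_7e4769_co.St.D1269
import Pool.Agent.Lib.MP_7e4769_co.St.D1270
import Pool.Agent.Lib.MP_7e4769_co.St.D1271
import Pool.Agent.Lib.MP_7e4769_co.St.D1272
import Pool.Agent.Lib.MP_7e4769_co.St.D1273
import Pool.Agent.Lib.MP_7e4769_co.St.D1274
import Pool.Agent.Lib.MP_7e4769_co.St.D1275
import Pool.Agent.Lib.MP_7e4769_co.St.D1276
import Pool.Agent.Lib.MP_7e4769_co.St.D1277
import Pool.Agent.Lib.MP_7e4769_co.St.D1278
import Pool.Agent.Lib.MP_7e4769_co.St.D1279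
import Pool.Agent.Lib.MP_7e4769_co.St.D1280
import Pool.Agent.Lib.MP_7e4769_co.St.D1281
import Pool.Agent.Lib.MP_7e4769_co.St.D1282
import Pool.Agent.Lib.MP_7e4769_co.St.D1283
import Pool.Agent.Lib.MP_7e4769_co.St.D1284
import Pool.Agent.Lib.MP_7e4769_co.St.D1285
import Pool.Agent.Lib.MP_7e4769_co.St.D1286
import Pool.Agent.Lib.MP_7e4769_co.St.D1287
import Pool.Agent.Lib.MP_7e4769_co.St.D1288
import Pool.Agent.Lib.MP_7e4769_co.St.D1289
import Pool.Agent.Lib.MP_7e4769_co.St.D1290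
import Pool.Agent.Lib.MP_7e4769_co.St.D1291
import Pool.Agent.Lib.MP_7e4769_co.St.D1292
import Pool.Agent.Lib.MP_7e4769_co.St.D1293
import Pool.Agent.Lib.MP_7e4769_co.St.D1294
import Pool.Agent.Lib.MP_7e4769_co.St.D1295
import Pool.Agent.Lib.MP_7e4769_co.St.D1296
import Pool.Agent.Lib.MP_7e4769_co.St.D1297
import Pool.Agent.Lib.MP_7e4769_co.St.D1298
import Pool.Agent.Lib.MP_7e4769_co.St.D1299
import Pool.Agent.Lib.MP_7e4769_co.St.D1300
import Pool.Agent.Lib.MP_7e4769_co.St.D1301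
import Pool.Agent.Lib.MP_7e4769_co.St.D1302
import Pool.Agent.Lib.MP_7e4769_co.St.D1303
import Pool.Agent.Lib.MP_7e4769_co.St.D1304
import Pool.Agent.Lib.MP_7e4769_co.St.D1305
import Pool.Agent.Lib.MP_7e4769_co.St.D1306
import Pool.Agent.Lib.MP_7e4769_co.St.D1307
import Pool.Agent.Lib.MP_7e4769_co.St.D1308
import Pool.Agent.Lib.MP_7e4769_co.St.D1309
import Pool.Agent.Lib.MP_7e4769_co.St.D1310
import Pool.Agent.Lib.MP_7e4769_co.St.D1311
import Pool.Agent.Lib.MP_7e4769_co.St.D1312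
import Pool.Agent.Lib.MP_7e4769_co.St.D1313
import Pool.Agent.Lib.MP_7e4769_co.St.D1314
import Pool.Agent.Lib.MP_7e4769_co.St.D1315
import Pool.Agent.Lib.MP_7e4769_co.St.D1316
import Pool.Agent.Lib.MP_7e4769_co.St.D1317
import Pool.Agent.Lib.MP_7e4769_co.St.D1318
import Pool.Agent.Lib.MP_7e4769_co.St.D1319
import Pool.Agent.Lib.MP_7e4769_co.St.D1320
import Pool.Agent.Lib.MP_7e4769_co.St.D1321
import Pool.Agent.Lib.MP_7e4769_co.St.D1322
import Pool.Agent.Lib.MP_7e4769_co.St.D1323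
import Pool.Agent.Lib.MP_7e4769_co.St.D1324
import Pool.Agent.Lib.MP_7e4769_co.St.D1325
import Pool.Agent.Lib.MP_7e4769_co.St.D1326
import Pool.Agent.Lib.MP_7e4769_co.St.D1327
import Pool.Agent.Lib.MP_7e4769_co.St.D1328
import Pool.Agent.Lib.MP_7e4769_co.St.D1329
import Pool.Agent.Lib.MP_7e4769_co.St.D1330
import Pool.Agent.Lib.MP_7e4769_co.St.D1331
import Pool.Agent.Lib.MP_7e4769_co.St.D1332
import Pool.Agent.Lib.MP_7e4769_co.St.D1333
import Pool.Agent.Lib.MP_7e4769_co.St.D1334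
import Pool.Agent.Lib.MP_7e4769_co.St.D1335
import Pool.Agent.Lib.MP_7e4769_co.St.D1336
import Pool.Agent.Lib.MP_7e4769_co.St.D1337
import Pool.Agent.Lib.MP_7e4769_co.St.D1338
import Pool.Agent.Lib.MP_7e4769_co.St.D1339
import Pool.Agent.Lib.MP_7e4769_co.St.D1340
import Pool.Agent.Lib.MP_7e4769_co.St.D1341
import Pool.Agent.Lib.MP_7e4769_co.St.D1342
import Pool.Agent.Lib.MP_7e4769_co.St.D1343
import Pool.Agent.Lib.MP_7e4769_co.St.D1344
import Pool.Agent.Lib.MP_7e4769_co.St.D1345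
import Pool.Agent.Lib.MP_7e4769_co.St.D1346
import Pool.Agent.Lib.MP_7e4769_co.St.D1347
import Pool.Agent.Lib.MP_7e4769_co.St.D1348
import Pool.Agent.Lib.MP_7e4769_co.St.D1349
import Pool.Agent.Lib.MP_7e4769_co.St.D1350
import Pool.Agent.Lib.MP_7e4769_co.St.D1351
import Pool.Agent.Lib.MP_7e4769_co.St.D1352
import Pool.Agent.Lib.MP_7e4769_co.St.D1353
import Pool.Agent.Lib.MP_7e4769_co.St.D1354
import Pool.Agent.Lib.MP_7e4769_co.St.D1355
import Pool.Agent.Lib.MP_7e4769_co.St.D1356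
import Pool.Agent.Lib.MP_7e4769_co.St.D1357
import Pool.Agent.Lib.MP_7e4769_co.St.D1358
import Pool.Agent.Lib.MP_7e4769_co.St.D1359
import Pool.Agent.Lib.MP_7e4769_co.St.D1360
import Pool.Agent.Lib.MP_7e4769_co.St.D1361
import Pool.Agent.Lib.MP_7e4769_co.St.D1362
import Pool.Agent.Lib.MP_7e4769_co.St.D1363
import Pool.Agent.Lib.MP_7e4769_co.St.D1364
import Pool.Agent.Lib.MP_7e4769_co.St.D1365
import Pool.Agent.Lib.MP_7e4769_co.St.D1366
import Pool.Agent.Lib.MP_7e4769_co.St.D1367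
import Pool.Agent.Lib.MP_7e4769_co.St.D1368
import Pool.Agent.Lib.MP_7e4769_co.St.D1369
import Pool.Agent.Lib.MP_7e4769_co.St.D1370
import Pool.Agent.Lib.MP_7e4769_co.St.D1371
import Pool.Agent.Lib.MP_7e4769_co.St.D1372
import Pool.Agent.Lib.MP_7e4769_co.St.D1373
import Pool.Agent.Lib.MP_7e4769_co.St.D1374
import Pool.Agent.Lib.MP_7e4769_co.St.D1375
import Pool.Agent.Lib.MP_7e4769_co.St.D1376
import Pool.Agent.Lib.MP_7e4769_co.St.D1377
import Pool.Agent.Lib.MP_7e4769_co.St.D1378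
import Pool.Agent.Lib.MP_7e4769_co.St.D1379
import Pool.Agent.Lib.MP_7e4769_co.St.D1380
import Pool.Agent.Lib.MP_7e4769_co.St.D1381
import Pool.Agent.Lib.MP_7e4769_co.St.D1382
import Pool.Agent.Lib.MP_7e4769_co.St.D1383
import Pool.Agent.Lib.MP_7e4769_co.St.D1384
import Pool.Agent.Lib.MP_7e4769_co.St.D1385
import Pool.Agent.Lib.MP_7e4769_co.St.D1386
import Pool.Agent.Lib.MP_7e4769_co.St.D1387
import Pool.Agent.Lib.MP_7e4769_co.St.D1388
import Pool.Agent.Lib.MP_7e4769_co.St.D1389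
import Pool.Agent.Lib.MP_7e4769_co.St.D1390
import Pool.Agent.Lib.MP_7e4769_co.St.D1391
import Pool.Agent.Lib.MP_7e4769_co.St.D1392
import Pool.Agent.Lib.MP_7e4769_co.St.D1393
import Pool.Agent.Lib.MP_7e4769_co.St.D1394
import Pool.Agent.Lib.MP_7e4769_co.St.D1395
import Pool.Agent.Lib.MP_7e4769_co.St.D1396
import Pool.Agent.Lib.MP_7e4769_co.St.D1397
import Pool.Agent.Lib.MP_7e4769_co.St.D1398
import Pool.Agent.Lib.MP_7e4769_co.St.D1399
import Pool.Agent.Lib.MP_7e4769_co.St.D1400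
import Pool.Agent.Lib.MP_7e4769_co.St.D1401
import Pool.Agent.Lib.MP_7e4769_co.St.D1402
import Pool.Agent.Lib.MP_7e4769_co.St.D1403
import Pool.Agent.Lib.MP_7e4769_co.St.D1404
import Pool.Agent.Lib.MP_7e4769_co.St.D1405
import Pool.Agent.Lib.MP_7e4769_co.St.D1406
import Pool.Agent.Lib.MP_7e4769_co.St.D1407
import Pool.Agent.Lib.MP_7e4769_co.St.D1408
import Pool.Agent.Lib.MP_7e4769_co.St.D1409
import Pool.Agent.Lib.MP_7e4769_co.St.D1410
import Pool.Agent.Lib.MP_7e4769_co.St.D1411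
import Pool.Agent.Lib.MP_7e4769_co.St.D1412
import Pool.Agent.Lib.MP_7e4769_co.St.D1413
import Pool.Agent.Lib.MP_7e4769_co.St.D1414
import Pool.Agent.Lib.MP_7e4769_co.St.D1415
import Pool.Agent.Lib.MP_7e4769_co.St.D1416
import Pool.Agent.Lib.MP_7e4769_co.St.D1417
import Pool.Agent.Lib.MP_7e4769_co.St.D1418
import Pool.Agent.Lib.MP_7e4769_co.St.D1419
import Pool.Agent.Lib.MP_7e4769_co.St.D1420
import Pool.Agent.Lib.MP_7e4769_co.St.D1421
import Pool.Agent.Lib.MP_7e4769_co.St.D1422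
import Pool.Agent.Lib.MP_7e4769_co.St.D1423
import Pool.Agent.Lib.MP_7e4769_co.St.D1424
import Pool.Agent.Lib.MP_7e4769_co.St.D1425
import Pool.Agent.Lib.MP_7e4769_co.St.D1426
import Pool.Agent.Lib.MP_7e4769_co.St.D1427
import Pool.Agent.Lib.MP_7e4769_co.St.D1428
import Pool.Agent.Lib.MP_7e4769_co.St.D1429
import Pool.Agent.Lib.MP_7e4769_co.St.D1430
import Pool.Agent.Lib.MP_7e4769_co.St.D1431
import Pool.Agent.Lib.MP_7e4769_co.St.D1432
import Pool.Agent.Lib.MP_7e4769_co.St.D1433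
import Pool.Agent.Lib.MP_7e4769_co.St.D1434
import Pool.Agent.Lib.MP_7e4769_co.St.D1435
import Pool.Agent.Lib.MP_7e4769_co.St.D1436
import Pool.Agent.Lib.MP_7e4769_co.St.D1437
import Pool.Agent.Lib.MP_7e4769_co.St.D1438
import Pool.Agent.Lib.MP_7e4769_co.St.D1439
import Pool.Agent.Lib.MP_7e4769_co.St.D1440
import Pool.Agent.Lib.MP_7e4769_co.St.D1441
import Pool.Agent.Lib.MP_7e4769_co.St.D1442
import Pool.Agent.Lib.MP_7e4769_co.St.D1443
import Pool.Agent.Lib.MP_7e4769_co.St.D1444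
import Pool.Agent.Lib.MP_7e4769_co.St.D1445
import Pool.Agent.Lib.MP_7e4769_co.St.D1446
import Pool.Agent.Lib.MP_7e4769_co.St.D1447
import Pool.Agent.Lib.MP_7e4769_co.St.D1448
import Pool.Agent.Lib.MP_7e4769_co.St.D1449
import Pool.Agent.Lib.MP_7e4769_co.St.D1450
import Pool.Agent.Lib.MP_7e4769_co.St.D1451
import Pool.Agent.Lib.MP_7e4769_co.St.D1452
import Pool.Agent.Lib.MP_7e4769_co.St.D1453
import Pool.Agent.Lib.MP_7e4769_co.St.D1454
import Pool.Agent.Lib.MP_7e4769_co.St.D1455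
import Pool.Agent.Lib.MP_7e4769_co.St.D1456
import Pool.Agent.Lib.MP_7e4769_co.St.D1457
import Pool.Agent.Lib.MP_7e4769_co.St.D1458
import Pool.Agent.Lib.MP_7e4769_co.St.D1459
import Pool.Agent.Lib.MP_7e4769_co.St.D1460
import Pool.Agent.Lib.MP_7e4769_co.St.D1461
import Pool.Agent.Lib.MP_7e4769_co.St.D1462
import Pool.Agent.Lib.MP_7e4769_co.St.D1463
import Pool.Agent.Lib.MP_7e4769_co.St.D1464
import Pool.Agent.Lib.MP_7e4769_co.St.D1465
import Pool.Agent.Lib.MP_7e4769_co.St.D1466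
import Pool.Agent.Lib.MP_7e4769_co.St.D1467
import Pool.Agent.Lib.MP_7e4769_co.St.D1468
import Pool.Agent.Lib.MP_7e4769_co.St.D1469
import Pool.Agent.Lib.MP_7e4769_co.St.D1470
import Pool.Agent.Lib.MP_7e4769_co.St.D1471
import Pool.Agent.Lib.MP_7e4769_co.St.D1472
import Pool.Agent.Lib.MP_7e4769_co.St.D1473
import Pool.Agent.Lib.MP_7e4769_co.St.D1474
import Pool.Agent.Lib.MP_7e4769_co.St.D1475
import Pool.Agent.Lib.MP_7e4769_co.St.D1476
import Pool.Agent.Lib.MP_7e4769_co.St.D1477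
import Pool.Agent.Lib.MP_7e4769_co.St.D1478
import Pool.Agent.Lib.MP_7e4769_co.St.D1479
import Pool.Agent.Lib.MP_7e4769_co.St.D1480
import Pool.Agent.Lib.MP_7e4769_co.St.D1481
import Pool.Agent.Lib.MP_7e4769_co.St.D1482
import Pool.Agent.Lib.MP_7e4769_co.St.D1483
import Pool.Agent.Lib.MP_7e4769_co.St.D1484
import Pool.Agent.Lib.MP_7e4769_co.St.D1485
import Pool.Agent.Lib.MP_7e4769_co.St.D1486
import Pool.Agent.Lib.MP_7e4769_co.St.D1487
import Pool.Agent.Lib.MP_7e4769_co.St.D1488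
import Pool.Agent.Lib.MP_7e4769_co.St.D1489
import Pool.Agent.Lib.MP_7e4769_co.St.D1490
import Pool.Agent.Lib.MP_7e4769_co.St.D1491
import Pool.Agent.Lib.MP_7e4769_co.St.D1492
import Pool.Agent.Lib.MP_7e4769_co.St.D1493
import Pool.Agent.Lib.MP_7e4769_co.St.D1494
import Pool.Agent.Lib.MP_7e4769_co.St.D1495
import Pool.Agent.Lib.MP_7e4769_co.St.D1496
import Pool.Agent.Lib.MP_7e4769_co.St.D1497
import Pool.Agent.Lib.MP_7e4769_co.St.D1498
import Pool.Agent.Lib.MP_7e4769_co.St.D1499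
import Pool.Agent.Lib.MP_7e4769_co.St.D1500
import Pool.Agent.Lib.MP_7e4769_co.St.D1501
import Pool.Agent.Lib.MP_7e4769_co.St.D1502
import Pool.Agent.Lib.MP_7e4769_co.St.D1503
import Pool.Agent.Lib.MP_7e4769_co.St.D1504
import Pool.Agent.Lib.MP_7e4769_co.St.D1505
import Pool.Agent.Lib.MP_7e4769_co.St.D1506
import Pool.Agent.Lib.MP_7e4769_co.St.D1507
import Pool.Agent.Lib.MP_7e4769_co.St.D1508
import Pool.Agent.Lib.MP_7e4769_co.St.D1509
import Pool.Agent.Lib.MP_7e4769_co.St.D1510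
import Pool.Agent.Lib.MP_7e4769_co.St.D1511
import Pool.Agent.Lib.MP_7e4769_co.St.D1512
import Pool.Agent.Lib.MP_7e4769_co.St.D1513
import Pool.Agent.Lib.MP_7e4769_co.St.D1514
import Pool.Agent.Lib.MP_7e4769_co.St.D1515
import Pool.Agent.Lib.MP_7e4769_co.St.D1516
import Pool.Agent.Lib.MP_7e4769_co.St.D1517
import Pool.Agent.Lib.MP_7e4769_co.St.D1518
import Pool.Agent.Lib.MP_7e4769_co.St.D1519
import Pool.Agent.Lib.MP_7e4769_co.St.D1520
import Pool.Agent.Lib.MP_7e4769_co.St.D1521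
import Pool.Agent.Lib.MP_7e4769_co.St.D1522
import Pool.Agent.Lib.MP_7e4769_co.St.D1523
import Pool.Agent.Lib.MP_7e4769_co.St.D1524
import Pool.Agent.Lib.MP_7e4769_co.St.D1525
import Pool.Agent.Lib.MP_7e4769_co.St.D1526
import Pool.Agent.Lib.MP_7e4769_co.St.D1527
import Pool.Agent.Lib.MP_7e4769_co.St.D1528
import Pool.Agent.Lib.MP_7e4769_co.St.D1529
import Pool.Agent.Lib.MP_7e4769_co.St.D1530
import Pool.Agent.Lib.MP_7e4769_co.St.D1531
import Pool.Agent.Lib.MP_7e4769_co.St.D1532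
import Pool.Agent.Lib.MP_7e4769_co.St.D1533
import Pool.Agent.Lib.MP_7e4769_co.St.D1534
import Pool.Agent.Lib.MP_7e4769_co.St.D1535
import Pool.Agent.Lib.MP_7e4769_co.St.D1536

set_option autoImplicit false
set_option maxRecDepth 100000

namespace Pool.Agent.Hom2

theorem St.ch_all : St.Ch 7 18104 :=
  St.zd0.trans <| St.zd1.trans <| St.zd2.trans <| St.zd3.trans <| St.zd4.trans <| St.zd5.trans <| St.zd6.trans <| St.zd7.trans <|
  St.zd8.trans <| St.zd9.trans <| St.zd10.trans <| St.zd11.trans <| St.zd12.trans <| St.zd13.trans <| St.zd14.trans <| St.zd15.trans <|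
  St.zd16.trans <| St.zd17.trans <| St.zd18.trans <| St.zd19.trans <| St.zd20.trans <| St.zd21.trans <| St.zd22.trans <| St.zd23.trans <|
  St.zd24.trans <| St.zd25.trans <| St.zd26.trans <| St.zd27.trans <| St.zd28.trans <| St.zd29.trans <| St.zd30.trans <| St.zd31.trans <|
  St.zd32.trans <| St.zd33.trans <| St.zd34.trans <| St.zd35.trans <| St.zd36.trans <| St.zd37.trans <| St.zd38.trans <| St.zd39.trans <|
  St.zd40.trans <| St.zd41.trans <| St.zd42.trans <| St.zd43.trans <| St.zd44.trans <| St.zd45.trans <| St.zd46.trans <| St.zd47.trans <|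
  St.zd48.trans <| St.zd49.trans <| St.zd50.trans <| St.zd51.trans <| St.zd52.trans <| St.zd53.trans <| St.zd54.trans <| St.zd55.trans <|
  St.zd56.trans <| St.zd57.trans <| St.zd58.trans <| St.zd59.trans <| St.zd60.trans <| St.zd61.trans <| St.zd62.trans <| St.zd63.trans <|
  St.zd64.trans <| St.zd65.trans <| St.zd66.trans <| St.zd67.trans <| St.zd68.trans <| St.zd69.trans <| St.zd70.trans <| St.zd71.trans <|
  St.zd72.trans <| St.zd73.trans <| St.zd74.trans <| St.zd75.trans <| St.zd76.trans <| St.zd77.trans <| St.zd78.trans <| St.zd79.trans <|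
  St.zd80.trans <| St.zd81.trans <| St.zd82.trans <| St.zd83.trans <| St.zd84.trans <| St.zd85.trans <| St.zd86.trans <| St.zd87.trans <|
  St.zd88.trans <| St.zd89.trans <| St.zd90.trans <| St.zd91.trans <| St.zd92.trans <| St.zd93.trans <| St.zd94.trans <| St.zd95.trans <|
  St.zd96.trans <| St.zd97.trans <| St.zd98.trans <| St.zd99.trans <| St.zd100.trans <| St.zd101.trans <| St.zd102.trans <| St.zd103.trans <|
  St.zd104.trans <| St.zd105.trans <| St.zd106.trans <| St.zd107.trans <| St.zd108.trans <| St.zd109.trans <| St.zd110.trans <| St.zd111.trans <|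
  St.zd112.trans <| St.zd113.trans <| St.zd114.trans <| St.zd115.trans <| St.zd116.trans <| St.zd117.trans <| St.zd118.trans <| St.zd119.trans <|
  St.zd120.trans <| St.zd121.trans <| St.zd122.trans <| St.zd123.trans <| St.zd124.trans <| St.zd125.trans <| St.zd126.trans <| St.zd127.trans <|
  St.zd128.trans <| St.zd129.trans <| St.zd130.trans <| St.zd131.trans <| St.zd132.trans <| St.zd133.trans <| St.zd134.trans <| St.zd135.trans <|
  St.zd136.trans <| St.zd137.trans <| St.zd138.trans <| St.zd139.trans <| St.zd140.trans <| St.zd141.trans <| St.zd142.trans <| St.zd143.trans <|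
  St.zd144.trans <| St.zd145.trans <| St.zd146.trans <| St.zd147.trans <| St.zd148.trans <| St.zd149.trans <| St.zd150.trans <| St.zd151.trans <|
  St.zd152.trans <| St.zd153.trans <| St.zd154.trans <| St.zd155.trans <| St.zd156.trans <| St.zd157.trans <| St.zd158.trans <| St.zd159.trans <|
  St.zd160.trans <| St.zd161.trans <| St.zd162.trans <| St.zd163.trans <| St.zd164.trans <| St.zd165.trans <| St.zd166.trans <| St.zd167.trans <|
  St.zd168.trans <| St.zd169.trans <| St.zd170.trans <| St.zd171.trans <| St.zd172.trans <| St.zd173.trans <| St.zd174.trans <| St.zd175.trans <|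
  St.zd176.trans <| St.zd177.trans <| St.zd178.trans <| St.zd179.trans <| St.zd180.trans <| St.zd181.trans <| St.zd182.trans <| St.zd183.trans <|
  St.zd184.trans <| St.zd185.trans <| St.zd186.trans <| St.zd187.trans <| St.zd188.trans <| St.zd189.trans <| St.zd190.trans <| St.zd191.trans <|
  St.zd192.trans <| St.zd193.trans <| St.zd194.trans <| St.zd195.trans <| St.zd196.trans <| St.zd197.trans <| St.zd198.trans <| St.zd199.trans <|
  St.zd200.trans <| St.zd201.trans <| St.zd202.trans <| St.zd203.trans <| St.zd204.trans <| St.zd205.trans <| St.zd206.trans <| St.zd207.trans <|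
  St.zd208.trans <| St.zd209.trans <| St.zd210.trans <| St.zd211.trans <| St.zd212.trans <| St.zd213.trans <| St.zd214.trans <| St.zd215.trans <|
  St.zd216.trans <| St.zd217.trans <| St.zd218.trans <| St.zd219.trans <| St.zd220.trans <| St.zd221.trans <| St.zd222.trans <| St.zd223.trans <|
  St.zd224.trans <| St.zd225.trans <| St.zd226.trans <| St.zd227.trans <| St.zd228.trans <| St.zd229.trans <| St.zd230.trans <| St.zd231.trans <|
  St.zd232.trans <| St.zd233.trans <| St.zd234.trans <| St.zd235.trans <| St.zd236.trans <| St.zd237.trans <| St.zd238.trans <| St.zd239.trans <|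
  St.zd240.trans <| St.zd241.trans <| St.zd242.trans <| St.zd243.trans <| St.zd244.trans <| St.zd245.trans <| St.zd246.trans <| St.zd247.trans <|
  St.zd248.trans <| St.zd249.trans <| St.zd250.trans <| St.zd251.trans <| St.zd252.trans <| St.zd253.trans <| St.zd254.trans <| St.zd255.trans <|
  St.zd256.trans <| St.zd257.trans <| St.zd258.trans <| St.zd259.trans <| St.zd260.trans <| St.zd261.trans <| St.zd262.trans <| St.zd263.trans <|
  St.zd264.trans <| St.zd265.trans <| St.zd266.trans <| St.zd267.trans <| St.zd268.trans <| St.zd269.trans <| St.zd270.trans <| St.zd271.trans <|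
  St.zd272.trans <| St.zd273.trans <| St.zd274.trans <| St.zd275.trans <| St.zd276.trans <| St.zd277.trans <| St.zd278.trans <| St.zd279.trans <|
  St.zd280.trans <| St.zd281.trans <| St.zd282.trans <| St.zd283.trans <| St.zd284.trans <| St.zd285.trans <| St.zd286.trans <| St.zd287.trans <|
  St.zd288.trans <| St.zd289.trans <| St.zd290.trans <| St.zd291.trans <| St.zd292.trans <| St.zd293.trans <| St.zd294.trans <| St.zd295.trans <|
  St.zd296.trans <| St.zd297.trans <| St.zd298.trans <| St.zd299.trans <| St.zd300.trans <| St.zd301.trans <| St.zd302.trans <| St.zd303.trans <|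
  St.zd304.trans <| St.zd305.trans <| St.zd306.trans <| St.zd307.trans <| St.zd308.trans <| St.zd309.trans <| St.zd310.trans <| St.zd311.trans <|
  St.zd312.trans <| St.zd313.trans <| St.zd314.trans <| St.zd315.trans <| St.zd316.trans <| St.zd317.trans <| St.zd318.trans <| St.zd319.trans <|
  St.zd320.trans <| St.zd321.trans <| St.zd322.trans <| St.zd323.trans <| St.zd324.trans <| St.zd325.trans <| St.zd326.trans <| St.zd327.trans <|
  St.zd328.trans <| St.zd329.trans <| St.zd330.trans <| St.zd331.trans <| St.zd332.trans <| St.zd333.trans <| St.zd334.trans <| St.zd335.trans <|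
  St.zd336.trans <| St.zd337.trans <| St.zd338.trans <| St.zd339.trans <| St.zd340.trans <| St.zd341.trans <| St.zd342.trans <| St.zd343.trans <|
  St.zd344.trans <| St.zd345.trans <| St.zd346.trans <| St.zd347.trans <| St.zd348.trans <| St.zd349.trans <| St.zd350.trans <| St.zd351.trans <|
  St.zd352.trans <| St.zd353.trans <| St.zd354.trans <| St.zd355.trans <| St.zd356.trans <| St.zd357.trans <| St.zd358.trans <| St.zd359.trans <|
  St.zd360.trans <| St.zd361.trans <| St.zd362.trans <| St.zd363.trans <| St.zd364.trans <| St.zd365.trans <| St.zd366.trans <| St.zd367.trans <|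
  St.zd368.trans <| St.zd369.trans <| St.zd370.trans <| St.zd371.trans <| St.zd372.trans <| St.zd373.trans <| St.zd374.trans <| St.zd375.trans <|
  St.zd376.trans <| St.zd377.trans <| St.zd378.trans <| St.zd379.trans <| St.zd380.trans <| St.zd381.trans <| St.zd382.trans <| St.zd383.trans <|
  St.zd384.trans <| St.zd385.trans <| St.zd386.trans <| St.zd387.trans <| St.zd388.trans <| St.zd389.trans <| St.zd390.trans <| St.zd391.trans <|
  St.zd392.trans <| St.zd393.trans <| St.zd394.trans <| St.zd395.trans <| St.zd396.trans <| St.zd397.trans <| St.zd398.trans <| St.zd399.trans <|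
  St.zd400.trans <| St.zd401.trans <| St.zd402.trans <| St.zd403.trans <| St.zd404.trans <| St.zd405.trans <| St.zd406.trans <| St.zd407.trans <|
  St.zd408.trans <| St.zd409.trans <| St.zd410.trans <| St.zd411.trans <| St.zd412.trans <| St.zd413.trans <| St.zd414.trans <| St.zd415.trans <|
  St.zd416.trans <| St.zd417.trans <| St.zd418.trans <| St.zd419.trans <| St.zd420.trans <| St.zd421.trans <| St.zd422.trans <| St.zd423.trans <|
  St.zd424.trans <| St.zd425.trans <| St.zd426.trans <| St.zd427.trans <| St.zd428.trans <| St.zd429.trans <| St.zd430.trans <| St.zd431.trans <|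
  St.zd432.trans <| St.zd433.trans <| St.zd434.trans <| St.zd435.trans <| St.zd436.trans <| St.zd437.trans <| St.zd438.trans <| St.zd439.trans <|
  St.zd440.trans <| St.zd441.trans <| St.zd442.trans <| St.zd443.trans <| St.zd444.trans <| St.zd445.trans <| St.zd446.trans <| St.zd447.trans <|
  St.zd448.trans <| St.zd449.trans <| St.zd450.trans <| St.zd451.trans <| St.zd452.trans <| St.zd453.trans <| St.zd454.trans <| St.zd455.trans <|
  St.zd456.trans <| St.zd457.trans <| St.zd458.trans <| St.zd459.trans <| St.zd460.trans <| St.zd461.trans <| St.zd462.trans <| St.zd463.trans <|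
  St.zd464.trans <| St.zd465.trans <| St.zd466.trans <| St.zd467.trans <| St.zd468.trans <| St.zd469.trans <| St.zd470.trans <| St.zd471.trans <|
  St.zd472.trans <| St.zd473.trans <| St.zd474.trans <| St.zd475.trans <| St.zd476.trans <| St.zd477.trans <| St.zd478.trans <| St.zd479.trans <|
  St.zd480.trans <| St.zd481.trans <| St.zd482.trans <| St.zd483.trans <| St.zd484.trans <| St.zd485.trans <| St.zd486.trans <| St.zd487.trans <|
  St.zd488.trans <| St.zd489.trans <| St.zd490.trans <| St.zd491.trans <| St.zd492.trans <| St.zd493.trans <| St.zd494.trans <| St.zd495.trans <|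
  St.zd496.trans <| St.zd497.trans <| St.zd498.trans <| St.zd499.trans <| St.zd500.trans <| St.zd501.trans <| St.zd502.trans <| St.zd503.trans <|
  St.zd504.trans <| St.zd505.trans <| St.zd506.trans <| St.zd507.trans <| St.zd508.trans <| St.zd509.trans <| St.zd510.trans <| St.zd511.trans <|
  St.zd512.trans <| St.zd513.trans <| St.zd514.trans <| St.zd515.trans <| St.zd516.trans <| St.zd517.trans <| St.zd518.trans <| St.zd519.trans <|
  St.zd520.trans <| St.zd521.trans <| St.zd522.trans <| St.zd523.trans <| St.zd524.trans <| St.zd525.trans <| St.zd526.trans <| St.zd527.trans <|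
  St.zd528.trans <| St.zd529.trans <| St.zd530.trans <| St.zd531.trans <| St.zd532.trans <| St.zd533.trans <| St.zd534.trans <| St.zd535.trans <|
  St.zd536.trans <| St.zd537.trans <| St.zd538.trans <| St.zd539.trans <| St.zd540.trans <| St.zd541.trans <| St.zd542.trans <| St.zd543.trans <|
  St.zd544.trans <| St.zd545.trans <| St.zd546.trans <| St.zd547.trans <| St.zd548.trans <| St.zd549.trans <| St.zd550.trans <| St.zd551.trans <|
  St.zd552.trans <| St.zd553.trans <| St.zd554.trans <| St.zd555.trans <| St.zd556.trans <| St.zd557.trans <| St.zd558.trans <| St.zd559.trans <|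
  St.zd560.trans <| St.zd561.trans <| St.zd562.trans <| St.zd563.trans <| St.zd564.trans <| St.zd565.trans <| St.zd566.trans <| St.zd567.trans <|
  St.zd568.trans <| St.zd569.trans <| St.zd570.trans <| St.zd571.trans <| St.zd572.trans <| St.zd573.trans <| St.zd574.trans <| St.zd575.trans <|
  St.zd576.trans <| St.zd577.trans <| St.zd578.trans <| St.zd579.trans <| St.zd580.trans <| St.zd581.trans <| St.zd582.trans <| St.zd583.trans <|
  St.zd584.trans <| St.zd585.trans <| St.zd586.trans <| St.zd587.trans <| St.zd588.trans <| St.zd589.trans <| St.zd590.trans <| St.zd591.trans <|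
  St.zd592.trans <| St.zd593.trans <| St.zd594.trans <| St.zd595.trans <| St.zd596.trans <| St.zd597.trans <| St.zd598.trans <| St.zd599.trans <|
  St.zd600.trans <| St.zd601.trans <| St.zd602.trans <| St.zd603.trans <| St.zd604.trans <| St.zd605.trans <| St.zd606.trans <| St.zd607.trans <|
  St.zd608.trans <| St.zd609.trans <| St.zd610.trans <| St.zd611.trans <| St.zd612.trans <| St.zd613.trans <| St.zd614.trans <| St.zd615.trans <|
  St.zd616.trans <| St.zd617.trans <| St.zd618.trans <| St.zd619.trans <| St.zd620.trans <| St.zd621.trans <| St.zd622.trans <| St.zd623.trans <|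
  St.zd624.trans <| St.zd625.trans <| St.zd626.trans <| St.zd627.trans <| St.zd628.trans <| St.zd629.trans <| St.zd630.trans <| St.zd631.trans <|
  St.zd632.trans <| St.zd633.trans <| St.zd634.trans <| St.zd635.trans <| St.zd636.trans <| St.zd637.trans <| St.zd638.trans <| St.zd639.trans <|
  St.zd640.trans <| St.zd641.trans <| St.zd642.trans <| St.zd643.trans <| St.zd644.trans <| St.zd645.trans <| St.zd646.trans <| St.zd647.trans <|
  St.zd648.trans <| St.zd649.trans <| St.zd650.trans <| St.zd651.trans <| St.zd652.trans <| St.zd653.trans <| St.zd654.trans <| St.zd655.trans <|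
  St.zd656.trans <| St.zd657.trans <| St.zd658.trans <| St.zd659.trans <| St.zd660.trans <| St.zd661.trans <| St.zd662.trans <| St.zd663.trans <|
  St.zd664.trans <| St.zd665.trans <| St.zd666.trans <| St.zd667.trans <| St.zd668.trans <| St.zd669.trans <| St.zd670.trans <| St.zd671.trans <|
  St.zd672.trans <| St.zd673.trans <| St.zd674.trans <| St.zd675.trans <| St.zd676.trans <| St.zd677.trans <| St.zd678.trans <| St.zd679.trans <|
  St.zd680.trans <| St.zd681.trans <| St.zd682.trans <| St.zd683.trans <| St.zd684.trans <| St.zd685.trans <| St.zd686.trans <| St.zd687.trans <|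
  St.zd688.trans <| St.zd689.trans <| St.zd690.trans <| St.zd691.trans <| St.zd692.trans <| St.zd693.trans <| St.zd694.trans <| St.zd695.trans <|
  St.zd696.trans <| St.zd697.trans <| St.zd698.trans <| St.zd699.trans <| St.zd700.trans <| St.zd701.trans <| St.zd702.trans <| St.zd703.trans <|
  St.zd704.trans <| St.zd705.trans <| St.zd706.trans <| St.zd707.trans <| St.zd708.trans <| St.zd709.trans <| St.zd710.trans <| St.zd711.trans <|
  St.zd712.trans <| St.zd713.trans <| St.zd714.trans <| St.zd715.trans <| St.zd716.trans <| St.zd717.trans <| St.zd718.trans <| St.zd719.trans <|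
  St.zd720.trans <| St.zd721.trans <| St.zd722.trans <| St.zd723.trans <| St.zd724.trans <| St.zd725.trans <| St.zd726.trans <| St.zd727.trans <|
  St.zd728.trans <| St.zd729.trans <| St.zd730.trans <| St.zd731.trans <| St.zd732.trans <| St.zd733.trans <| St.zd734.trans <| St.zd735.trans <|
  St.zd736.trans <| St.zd737.trans <| St.zd738.trans <| St.zd739.trans <| St.zd740.trans <| St.zd741.trans <| St.zd742.trans <| St.zd743.trans <|
  St.zd744.trans <| St.zd745.trans <| St.zd746.trans <| St.zd747.trans <| St.zd748.trans <| St.zd749.trans <| St.zd750.trans <| St.zd751.trans <|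
  St.zd752.trans <| St.zd753.trans <| St.zd754.trans <| St.zd755.trans <| St.zd756.trans <| St.zd757.trans <| St.zd758.trans <| St.zd759.trans <|
  St.zd760.trans <| St.zd761.trans <| St.zd762.trans <| St.zd763.trans <| St.zd764.trans <| St.zd765.trans <| St.zd766.trans <| St.zd767.trans <|
  St.zd768.trans <| St.zd769.trans <| St.zd770.trans <| St.zd771.trans <| St.zd772.trans <| St.zd773.trans <| St.zd774.trans <| St.zd775.trans <|
  St.zd776.trans <| St.zd777.trans <| St.zd778.trans <| St.zd779.trans <| St.zd780.trans <| St.zd781.trans <| St.zd782.trans <| St.zd783.trans <|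
  St.zd784.trans <| St.zd785.trans <| St.zd786.trans <| St.zd787.trans <| St.zd788.trans <| St.zd789.trans <| St.zd790.trans <| St.zd791.trans <|
  St.zd792.trans <| St.zd793.trans <| St.zd794.trans <| St.zd795.trans <| St.zd796.trans <| St.zd797.trans <| St.zd798.trans <| St.zd799.trans <|
  St.zd800.trans <| St.zd801.trans <| St.zd802.trans <| St.zd803.trans <| St.zd804.trans <| St.zd805.trans <| St.zd806.trans <| St.zd807.trans <|
  St.zd808.trans <| St.zd809.trans <| St.zd810.trans <| St.zd811.trans <| St.zd812.trans <| St.zd813.trans <| St.zd814.trans <| St.zd815.trans <|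
  St.zd816.trans <| St.zd817.trans <| St.zd818.trans <| St.zd819.trans <| St.zd820.trans <| St.zd821.trans <| St.zd822.trans <| St.zd823.trans <|
  St.zd824.trans <| St.zd825.trans <| St.zd826.trans <| St.zd827.trans <| St.zd828.trans <| St.zd829.trans <| St.zd830.trans <| St.zd831.trans <|
  St.zd832.trans <| St.zd833.trans <| St.zd834.trans <| St.zd835.trans <| St.zd836.trans <| St.zd837.trans <| St.zd838.trans <| St.zd839.trans <|
  St.zd840.trans <| St.zd841.trans <| St.zd842.trans <| St.zd843.trans <| St.zd844.trans <| St.zd845.trans <| St.zd846.trans <| St.zd847.trans <|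
  St.zd848.trans <| St.zd849.trans <| St.zd850.trans <| St.zd851.trans <| St.zd852.trans <| St.zd853.trans <| St.zd854.trans <| St.zd855.trans <|
  St.zd856.trans <| St.zd857.trans <| St.zd858.trans <| St.zd859.trans <| St.zd860.trans <| St.zd861.trans <| St.zd862.trans <| St.zd863.trans <|
  St.zd864.trans <| St.zd865.trans <| St.zd866.trans <| St.zd867.trans <| St.zd868.trans <| St.zd869.trans <| St.zd870.trans <| St.zd871.trans <|
  St.zd872.trans <| St.zd873.trans <| St.zd874.trans <| St.zd875.trans <| St.zd876.trans <| St.zd877.trans <| St.zd878.trans <| St.zd879.trans <|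
  St.zd880.trans <| St.zd881.trans <| St.zd882.trans <| St.zd883.trans <| St.zd884.trans <| St.zd885.trans <| St.zd886.trans <| St.zd887.trans <|
  St.zd888.trans <| St.zd889.trans <| St.zd890.trans <| St.zd891.trans <| St.zd892.trans <| St.zd893.trans <| St.zd894.trans <| St.zd895.trans <|
  St.zd896.trans <| St.zd897.trans <| St.zd898.trans <| St.zd899.trans <| St.zd900.trans <| St.zd901.trans <| St.zd902.trans <| St.zd903.trans <|
  St.zd904.trans <| St.zd905.trans <| St.zd906.trans <| St.zd907.trans <| St.zd908.trans <| St.zd909.trans <| St.zd910.trans <| St.zd911.trans <|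
  St.zd912.trans <| St.zd913.trans <| St.zd914.trans <| St.zd915.trans <| St.zd916.trans <| St.zd917.trans <| St.zd918.trans <| St.zd919.trans <|
  St.zd920.trans <| St.zd921.trans <| St.zd922.trans <| St.zd923.trans <| St.zd924.trans <| St.zd925.trans <| St.zd926.trans <| St.zd927.trans <|
  St.zd928.trans <| St.zd929.trans <| St.zd930.trans <| St.zd931.trans <| St.zd932.trans <| St.zd933.trans <| St.zd934.trans <| St.zd935.trans <|
  St.zd936.trans <| St.zd937.trans <| St.zd938.trans <| St.zd939.trans <| St.zd940.trans <| St.zd941.trans <| St.zd942.trans <| St.zd943.trans <|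
  St.zd944.trans <| St.zd945.trans <| St.zd946.trans <| St.zd947.trans <| St.zd948.trans <| St.zd949.trans <| St.zd950.trans <| St.zd951.trans <|
  St.zd952.trans <| St.zd953.trans <| St.zd954.trans <| St.zd955.trans <| St.zd956.trans <| St.zd957.trans <| St.zd958.trans <| St.zd959.trans <|
  St.zd960.trans <| St.zd961.trans <| St.zd962.trans <| St.zd963.trans <| St.zd964.trans <| St.zd965.trans <| St.zd966.trans <| St.zd967.trans <|
  St.zd968.trans <| St.zd969.trans <| St.zd970.trans <| St.zd971.trans <| St.zd972.trans <| St.zd973.trans <| St.zd974.trans <| St.zd975.trans <|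
  St.zd976.trans <| St.zd977.trans <| St.zd978.trans <| St.zd979.trans <| St.zd980.trans <| St.zd981.trans <| St.zd982.trans <| St.zd983.trans <|
  St.zd984.trans <| St.zd985.trans <| St.zd986.trans <| St.zd987.trans <| St.zd988.trans <| St.zd989.trans <| St.zd990.trans <| St.zd991.trans <|
  St.zd992.trans <| St.zd993.trans <| St.zd994.trans <| St.zd995.trans <| St.zd996.trans <| St.zd997.trans <| St.zd998.trans <| St.zd999.trans <|
  St.zd1000.trans <| St.zd1001.trans <| St.zd1002.trans <| St.zd1003.trans <| St.zd1004.trans <| St.zd1005.trans <| St.zd1006.trans <| St.zd1007.trans <|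
  St.zd1008.trans <| St.zd1009.trans <| St.zd1010.trans <| St.zd1011.trans <| St.zd1012.trans <| St.zd1013.trans <| St.zd1014.trans <| St.zd1015.trans <|
  St.zd1016.trans <| St.zd1017.trans <| St.zd1018.trans <| St.zd1019.trans <| St.zd1020.trans <| St.zd1021.trans <| St.zd1022.trans <| St.zd1023.trans <|
  St.zd1024.trans <| St.zd1025.trans <| St.zd1026.trans <| St.zd1027.trans <| St.zd1028.trans <| St.zd1029.trans <| St.zd1030.trans <| St.zd1031.trans <|
  St.zd1032.trans <| St.zd1033.trans <| St.zd1034.trans <| St.zd1035.trans <| St.zd1036.trans <| St.zd1037.trans <| St.zd1038.trans <| St.zd1039.trans <|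
  St.zd1040.trans <| St.zd1041.trans <| St.zd1042.trans <| St.zd1043.trans <| St.zd1044.trans <| St.zd1045.trans <| St.zd1046.trans <| St.zd1047.trans <|
  St.zd1048.trans <| St.zd1049.trans <| St.zd1050.trans <| St.zd1051.trans <| St.zd1052.trans <| St.zd1053.trans <| St.zd1054.trans <| St.zd1055.trans <|
  St.zd1056.trans <| St.zd1057.trans <| St.zd1058.trans <| St.zd1059.trans <| St.zd1060.trans <| St.zd1061.trans <| St.zd1062.trans <| St.zd1063.trans <|
  St.zd1064.trans <| St.zd1065.trans <| St.zd1066.trans <| St.zd1067.trans <| St.zd1068.trans <| St.zd1069.trans <| St.zd1070.trans <| St.zd1071.trans <|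
  St.zd1072.trans <| St.zd1073.trans <| St.zd1074.trans <| St.zd1075.trans <| St.zd1076.trans <| St.zd1077.trans <| St.zd1078.trans <| St.zd1079.trans <|
  St.zd1080.trans <| St.zd1081.trans <| St.zd1082.trans <| St.zd1083.trans <| St.zd1084.trans <| St.zd1085.trans <| St.zd1086.trans <| St.zd1087.trans <|
  St.zd1088.trans <| St.zd1089.trans <| St.zd1090.trans <| St.zd1091.trans <| St.zd1092.trans <| St.zd1093.trans <| St.zd1094.trans <| St.zd1095.trans <|
  St.zd1096.trans <| St.zd1097.trans <| St.zd1098.trans <| St.zd1099.trans <| St.zd1100.trans <| St.zd1101.trans <| St.zd1102.trans <| St.zd1103.trans <|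
  St.zd1104.trans <| St.zd1105.trans <| St.zd1106.trans <| St.zd1107.trans <| St.zd1108.trans <| St.zd1109.trans <| St.zd1110.trans <| St.zd1111.trans <|
  St.zd1112.trans <| St.zd1113.trans <| St.zd1114.trans <| St.zd1115.trans <| St.zd1116.trans <| St.zd1117.trans <| St.zd1118.trans <| St.zd1119.trans <|
  St.zd1120.trans <| St.zd1121.trans <| St.zd1122.trans <| St.zd1123.trans <| St.zd1124.trans <| St.zd1125.trans <| St.zd1126.trans <| St.zd1127.trans <|
  St.zd1128.trans <| St.zd1129.trans <| St.zd1130.trans <| St.zd1131.trans <| St.zd1132.trans <| St.zd1133.trans <| St.zd1134.trans <| St.zd1135.trans <|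
  St.zd1136.trans <| St.zd1137.trans <| St.zd1138.trans <| St.zd1139.trans <| St.zd1140.trans <| St.zd1141.trans <| St.zd1142.trans <| St.zd1143.trans <|
  St.zd1144.trans <| St.zd1145.trans <| St.zd1146.trans <| St.zd1147.trans <| St.zd1148.trans <| St.zd1149.trans <| St.zd1150.trans <| St.zd1151.trans <|
  St.zd1152.trans <| St.zd1153.trans <| St.zd1154.trans <| St.zd1155.trans <| St.zd1156.trans <| St.zd1157.trans <| St.zd1158.trans <| St.zd1159.trans <|
  St.zd1160.trans <| St.zd1161.trans <| St.zd1162.trans <| St.zd1163.trans <| St.zd1164.trans <| St.zd1165.trans <| St.zd1166.trans <| St.zd1167.trans <|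
  St.zd1168.trans <| St.zd1169.trans <| St.zd1170.trans <| St.zd1171.trans <| St.zd1172.trans <| St.zd1173.trans <| St.zd1174.trans <| St.zd1175.trans <|
  St.zd1176.trans <| St.zd1177.trans <| St.zd1178.trans <| St.zd1179.trans <| St.zd1180.trans <| St.zd1181.trans <| St.zd1182.trans <| St.zd1183.trans <|
  St.zd1184.trans <| St.zd1185.trans <| St.zd1186.trans <| St.zd1187.trans <| St.zd1188.trans <| St.zd1189.trans <| St.zd1190.trans <| St.zd1191.trans <|
  St.zd1192.trans <| St.zd1193.trans <| St.zd1194.trans <| St.zd1195.trans <| St.zd1196.trans <| St.zd1197.trans <| St.zd1198.trans <| St.zd1199.trans <|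
  St.zd1200.trans <| St.zd1201.trans <| St.zd1202.trans <| St.zd1203.trans <| St.zd1204.trans <| St.zd1205.trans <| St.zd1206.trans <| St.zd1207.trans <|
  St.zd1208.trans <| St.zd1209.trans <| St.zd1210.trans <| St.zd1211.trans <| St.zd1212.trans <| St.zd1213.trans <| St.zd1214.trans <| St.zd1215.trans <|
  St.zd1216.trans <| St.zd1217.trans <| St.zd1218.trans <| St.zd1219.trans <| St.zd1220.trans <| St.zd1221.trans <| St.zd1222.trans <| St.zd1223.trans <|
  St.zd1224.trans <| St.zd1225.trans <| St.zd1226.trans <| St.zd1227.trans <| St.zd1228.trans <| St.zd1229.trans <| St.zd1230.trans <| St.zd1231.trans <|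
  St.zd1232.trans <| St.zd1233.trans <| St.zd1234.trans <| St.zd1235.trans <| St.zd1236.trans <| St.zd1237.trans <| St.zd1238.trans <| St.zd1239.trans <|
  St.zd1240.trans <| St.zd1241.trans <| St.zd1242.trans <| St.zd1243.trans <| St.zd1244.trans <| St.zd1245.trans <| St.zd1246.trans <| St.zd1247.trans <|
  St.zd1248.trans <| St.zd1249.trans <| St.zd1250.trans <| St.zd1251.trans <| St.zd1252.trans <| St.zd1253.trans <| St.zd1254.trans <| St.zd1255.trans <|
  St.zd1256.trans <| St.zd1257.trans <| St.zd1258.trans <| St.zd1259.trans <| St.zd1260.trans <| St.zd1261.trans <| St.zd1262.trans <| St.zd1263.trans <|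
  St.zd1264.trans <| St.zd1265.trans <| St.zd1266.trans <| St.zd1267.trans <| St.zd1268.trans <| St.zd1269.trans <| St.zd1270.trans <| St.zd1271.trans <|
  St.zd1272.trans <| St.zd1273.trans <| St.zd1274.trans <| St.zd1275.trans <| St.zd1276.trans <| St.zd1277.trans <| St.zd1278.trans <| St.zd1279.trans <|
  St.zd1280.trans <| St.zd1281.trans <| St.zd1282.trans <| St.zd1283.trans <| St.zd1284.trans <| St.zd1285.trans <| St.zd1286.trans <| St.zd1287.trans <|
  St.zd1288.trans <| St.zd1289.trans <| St.zd1290.trans <| St.zd1291.trans <| St.zd1292.trans <| St.zd1293.trans <| St.zd1294.trans <| St.zd1295.trans <|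
  St.zd1296.trans <| St.zd1297.trans <| St.zd1298.trans <| St.zd1299.trans <| St.zd1300.trans <| St.zd1301.trans <| St.zd1302.trans <| St.zd1303.trans <|
  St.zd1304.trans <| St.zd1305.trans <| St.zd1306.trans <| St.zd1307.trans <| St.zd1308.trans <| St.zd1309.trans <| St.zd1310.trans <| St.zd1311.trans <|
  St.zd1312.trans <| St.zd1313.trans <| St.zd1314.trans <| St.zd1315.trans <| St.zd1316.trans <| St.zd1317.trans <| St.zd1318.trans <| St.zd1319.trans <|
  St.zd1320.trans <| St.zd1321.trans <| St.zd1322.trans <| St.zd1323.trans <| St.zd1324.trans <| St.zd1325.trans <| St.zd1326.trans <| St.zd1327.trans <|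
  St.zd1328.trans <| St.zd1329.trans <| St.zd1330.trans <| St.zd1331.trans <| St.zd1332.trans <| St.zd1333.trans <| St.zd1334.trans <| St.zd1335.trans <|
  St.zd1336.trans <| St.zd1337.trans <| St.zd1338.trans <| St.zd1339.trans <| St.zd1340.trans <| St.zd1341.trans <| St.zd1342.trans <| St.zd1343.trans <|
  St.zd1344.trans <| St.zd1345.trans <| St.zd1346.trans <| St.zd1347.trans <| St.zd1348.trans <| St.zd1349.trans <| St.zd1350.trans <| St.zd1351.trans <|
  St.zd1352.trans <| St.zd1353.trans <| St.zd1354.trans <| St.zd1355.trans <| St.zd1356.trans <| St.zd1357.trans <| St.zd1358.trans <| St.zd1359.trans <|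
  St.zd1360.trans <| St.zd1361.trans <| St.zd1362.trans <| St.zd1363.trans <| St.zd1364.trans <| St.zd1365.trans <| St.zd1366.trans <| St.zd1367.trans <|
  St.zd1368.trans <| St.zd1369.trans <| St.zd1370.trans <| St.zd1371.trans <| St.zd1372.trans <| St.zd1373.trans <| St.zd1374.trans <| St.zd1375.trans <|
  St.zd1376.trans <| St.zd1377.trans <| St.zd1378.trans <| St.zd1379.trans <| St.zd1380.trans <| St.zd1381.trans <| St.zd1382.trans <| St.zd1383.trans <|
  St.zd1384.trans <| St.zd1385.trans <| St.zd1386.trans <| St.zd1387.trans <| St.zd1388.trans <| St.zd1389.trans <| St.zd1390.trans <| St.zd1391.trans <|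
  St.zd1392.trans <| St.zd1393.trans <| St.zd1394.trans <| St.zd1395.trans <| St.zd1396.trans <| St.zd1397.trans <| St.zd1398.trans <| St.zd1399.trans <|
  St.zd1400.trans <| St.zd1401.trans <| St.zd1402.trans <| St.zd1403.trans <| St.zd1404.trans <| St.zd1405.trans <| St.zd1406.trans <| St.zd1407.trans <|
  St.zd1408.trans <| St.zd1409.trans <| St.zd1410.trans <| St.zd1411.trans <| St.zd1412.trans <| St.zd1413.trans <| St.zd1414.trans <| St.zd1415.trans <|
  St.zd1416.trans <| St.zd1417.trans <| St.zd1418.trans <| St.zd1419.trans <| St.zd1420.trans <| St.zd1421.trans <| St.zd1422.trans <| St.zd1423.trans <|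
  St.zd1424.trans <| St.zd1425.trans <| St.zd1426.trans <| St.zd1427.trans <| St.zd1428.trans <| St.zd1429.trans <| St.zd1430.trans <| St.zd1431.trans <|
  St.zd1432.trans <| St.zd1433.trans <| St.zd1434.trans <| St.zd1435.trans <| St.zd1436.trans <| St.zd1437.trans <| St.zd1438.trans <| St.zd1439.trans <|
  St.zd1440.trans <| St.zd1441.trans <| St.zd1442.trans <| St.zd1443.trans <| St.zd1444.trans <| St.zd1445.trans <| St.zd1446.trans <| St.zd1447.trans <|
  St.zd1448.trans <| St.zd1449.trans <| St.zd1450.trans <| St.zd1451.trans <| St.zd1452.trans <| St.zd1453.trans <| St.zd1454.trans <| St.zd1455.trans <|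
  St.zd1456.trans <| St.zd1457.trans <| St.zd1458.trans <| St.zd1459.trans <| St.zd1460.trans <| St.zd1461.trans <| St.zd1462.trans <| St.zd1463.trans <|
  St.zd1464.trans <| St.zd1465.trans <| St.zd1466.trans <| St.zd1467.trans <| St.zd1468.trans <| St.zd1469.trans <| St.zd1470.trans <| St.zd1471.trans <|
  St.zd1472.trans <| St.zd1473.trans <| St.zd1474.trans <| St.zd1475.trans <| St.zd1476.trans <| St.zd1477.trans <| St.zd1478.trans <| St.zd1479.trans <|
  St.zd1480.trans <| St.zd1481.trans <| St.zd1482.trans <| St.zd1483.trans <| St.zd1484.trans <| St.zd1485.trans <| St.zd1486.trans <| St.zd1487.trans <|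
  St.zd1488.trans <| St.zd1489.trans <| St.zd1490.trans <| St.zd1491.trans <| St.zd1492.trans <| St.zd1493.trans <| St.zd1494.trans <| St.zd1495.trans <|
  St.zd1496.trans <| St.zd1497.trans <| St.zd1498.trans <| St.zd1499.trans <| St.zd1500.trans <| St.zd1501.trans <| St.zd1502.trans <| St.zd1503.trans <|
  St.zd1504.trans <| St.zd1505.trans <| St.zd1506.trans <| St.zd1507.trans <| St.zd1508.trans <| St.zd1509.trans <| St.zd1510.trans <| St.zd1511.trans <|
  St.zd1512.trans <| St.zd1513.trans <| St.zd1514.trans <| St.zd1515.trans <| St.zd1516.trans <| St.zd1517.trans <| St.zd1518.trans <| St.zd1519.trans <|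
  St.zd1520.trans <| St.zd1521.trans <| St.zd1522.trans <| St.zd1523.trans <| St.zd1524.trans <| St.zd1525.trans <| St.zd1526.trans <| St.zd1527.trans <|
  St.zd1528.trans <| St.zd1529.trans <| St.zd1530.trans <| St.zd1531.trans <| St.zd1532.trans <| St.zd1533.trans <| St.zd1534.trans <| St.zd1535.trans <|
  St.zd1536

theorem St.Ch.holds {V : Type} {G : SimpleGraph V} {X : Finset V} {Gl : Prop}
    (cx : ∀ t, Sc.Ctx (St.pm4 t) G X Gl) {f e : ℕ} (h : St.Ch f e)
    (hf : ∀ g < f, Sc.Holds G X Gl (Sc.dget St.db g)) : ∀ g < e, Sc.Holds G X Gl (Sc.dget St.db g) := by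
  induction h with
  | rf f => exact hf
  | st f c e t B h r ih => exact ih (holds_chain hf (cx t) rfl (Nat.eq_of_beq_eq_true h))

/-- index of the fact on the cycle of length `2 * j` -/
def St.rootId (j : ℕ) : ℕ := [0, 0, 2638, 5265, 16331, 16994, 17063, 17156, 17359, 17631, 18103].getD j 0

theorem St.roots : ∀ j < 11, 2 ≤ j → St.rootId j < 18104 ∧ cycE (Sc.dget St.db (St.rootId j)) (2 * j) := by
  decide +kernel

/-- the facts on short even cycles -/
theorem start {V : Type} [DecidableEq V] (G : SimpleGraph V) (X : Finset V) (h : Lv3 G X) (j : ℕ) (h1 : 2 ≤ j)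
    (h2 : j ≤ 10) : ∃ e, cycE e (2 * j) ∧ Sc.Holds G X (TG G X) e :=
  start_of (db := St.db) (dn := St.dn) (nt := St.nt) (g0 := 19) (g1 := 28) (g2 := 33) (g5 := 34)
    (g3 := 115) (N := 18104) (fun _ _ cx hb => St.ch_all.holds cx hb) (by decide +kernel) (by decide +kernel)
    (by decide +kernel) (by decide +kernel) (by decide +kernel) (fun _ _ r => Rq.non_all r Or.inl)
    (fun j a b => ⟨_, St.roots j (by omega) a⟩) G X h j h1 h2

end Pool.Agent.Hom2
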